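import Pool.Agent.H20.Morse.F

/-! Module C, part 1: elementary paths and their toggles (MP_b587bd_al, helper20). -/

set_option autoImplicit false

namespace Pool.Agent.H20.Morse

open SemidirectProduct

/-- Elementary move of `Q`. -/
def QM (r : Q) : Prop :=
  (r = 1 ∨ (inr r : G) ∈ SG ∨ (inr r : G)⁻¹ ∈ SG) ∧ |r.h| ≤ 1 ∧ |r.a| ≤ 1 ∧ |r.b| ≤ 1 ∧ |r.c| ≤ 1

/-- Elementary step: a toggle or an elementary move. -/
def El (x y : G) : Prop := y = x * al ∨ ∃ r : Q, QM r ∧ y = x * inr r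

/-- Elementary path. -/
def EP (T : ℕ) (g : ℕ → G) : Prop := ∀ t < T, El (g t) (g (t + 1))

theorem al_inv : al⁻¹ = al := by
  unfold al
  rw [← map_inv, Racg.lamp_inv]

/-- Total parity of the number of toggles. -/
def tpar : N →* ℤˣ := Racg.lift (fun _ => -1) (fun _ => by simp) (fun _ _ _ => rfl)

theorem al_ne_inr (r : Q) : al ≠ inr r := by
  intro h
  have h1 := congrArg (fun x : G => tpar x.left) h
  have h2 : tpar (lmp x0) = -1 := rfl
  simp only [al, left_inl, left_inr, map_one, h2] at h1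
  exact absurd h1 (by decide)

theorem QM_one : QM 1 := ⟨Or.inl rfl, by simp⟩

theorem QM_e1 : QM ⟨1, 0, 0, 0⟩ := ⟨Or.inr (Or.inl e1_mem_SG), by simp⟩
theorem QM_e2 : QM ⟨0, 1, 0, 0⟩ := ⟨Or.inr (Or.inl e2_mem_SG), by simp⟩
theorem QM_e3 : QM ⟨0, 0, 1, 0⟩ := ⟨Or.inr (Or.inl e3_mem_SG), by simp⟩
theorem QM_sh : QM ⟨0, 0, 0, 1⟩ := ⟨Or.inr (Or.inl sh_mem_SG), by simp⟩

theorem QM_inv_aux (r : Q) (h : (inr r : G) ∈ SG) (hb : |r.h| ≤ 1 ∧ |r.a| ≤ 1 ∧ |r.b| ≤ 1 ∧ |r.c| ≤ 1)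
    (hr : r⁻¹ = ⟨-r.c, -r.b, -r.a, -r.h⟩) : QM r⁻¹ := by
  refine ⟨Or.inr (Or.inr ?_), ?_⟩
  · rw [map_inv, inv_inv]
    exact h
  · rw [hr]
    simpa using hb

theorem QM_e1_inv : QM (⟨1, 0, 0, 0⟩ : Q)⁻¹ :=
  QM_inv_aux _ e1_mem_SG (by simp) (by ext <;> simp)
theorem QM_e2_inv : QM (⟨0, 1, 0, 0⟩ : Q)⁻¹ :=
  QM_inv_aux _ e2_mem_SG (by simp) (by ext <;> simp)
theorem QM_e3_inv : QM (⟨0, 0, 1, 0⟩ : Q)⁻¹ :=
  QM_inv_aux _ e3_mem_SG (by simp) (by ext <;> simp)
theorem QM_sh_inv : QM (⟨0, 0, 0, 1⟩ : Q)⁻¹ :=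
  QM_inv_aux _ sh_mem_SG (by simp) (by ext <;> simp)

theorem El.path {x y : G} (h : El x y) : x = y ∨ (cay SG).Adj x y := by
  rcases h with rfl | ⟨r, hr, rfl⟩
  · exact isPath_step (Or.inl al_mem_SG)
  · rcases hr.1 with rfl | hr | hr
    · left; simp
    · exact isPath_step (Or.inl hr)
    · exact isPath_step (Or.inr hr)

theorem El.dist_le {x y : G} (h : El x y) : (cay SG).dist x y ≤ 1 := by
  rcases h.path with h | h
  · rw [h]; simp
  · rw [SimpleGraph.dist_eq_one_iff_adj.mpr h]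

theorem EP.isPath {T : ℕ} {g : ℕ → G} (h : EP T g) : IsPath (cay SG) T g :=
  fun t ht => (h t ht).path

/-- Each generator step splits in two elementary steps. -/
theorem split_step {x y : G} (h : x = y ∨ (cay SG).Adj x y) : ∃ z, El x z ∧ El z y := by
  classical
  rcases h with rfl | h
  · exact ⟨x, Or.inr ⟨1, QM_one, by simp⟩, Or.inr ⟨1, QM_one, by simp⟩⟩
  · rw [cay_adj] at h
    rcases h.2 with h | h
    · obtain ⟨s, hs, rfl⟩ : ∃ s ∈ SG, y = x * s := ⟨x⁻¹ * y, h, by simp⟩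
      simp only [SG, Finset.mem_insert, Finset.mem_singleton] at hs
      rcases hs with rfl | rfl | rfl | rfl | rfl | rfl
      · exact ⟨x * al, Or.inl rfl, Or.inr ⟨1, QM_one, by simp⟩⟩
      · exact ⟨x, Or.inr ⟨1, QM_one, by simp⟩, Or.inr ⟨_, QM_e1, rfl⟩⟩
      · exact ⟨x, Or.inr ⟨1, QM_one, by simp⟩, Or.inr ⟨_, QM_e2, rfl⟩⟩
      · exact ⟨x, Or.inr ⟨1, QM_one, by simp⟩, Or.inr ⟨_, QM_e3, rfl⟩⟩
      · exact ⟨x, Or.inr ⟨1, QM_one, by simp⟩, Or.inr ⟨_, QM_sh, rfl⟩⟩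
      · exact ⟨x * al, Or.inl rfl, Or.inr ⟨_, QM_sh, by rw [mul_assoc]; rfl⟩⟩
    · obtain ⟨s, hs, rfl⟩ : ∃ s ∈ SG, y = x * s⁻¹ := ⟨y⁻¹ * x, h, by simp [mul_inv_rev]⟩
      simp only [SG, Finset.mem_insert, Finset.mem_singleton] at hs
      rcases hs with rfl | rfl | rfl | rfl | rfl | rfl
      · exact ⟨x * al, Or.inl rfl, Or.inr ⟨1, QM_one, by simp [al_inv]⟩⟩
      · exact ⟨x, Or.inr ⟨1, QM_one, by simp⟩, Or.inr ⟨_, QM_e1_inv, by rw [map_inv]; rfl⟩⟩
      · exact ⟨x, Or.inr ⟨1, QM_one, by simp⟩, Or.inr ⟨_, QM_e2_inv, by rw [map_inv]; rfl⟩⟩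
      · exact ⟨x, Or.inr ⟨1, QM_one, by simp⟩, Or.inr ⟨_, QM_e3_inv, by rw [map_inv]; rfl⟩⟩
      · exact ⟨x, Or.inr ⟨1, QM_one, by simp⟩, Or.inr ⟨_, QM_sh_inv, by rw [map_inv]; rfl⟩⟩
      · refine ⟨x * sh⁻¹, Or.inr ⟨_, QM_sh_inv, by rw [map_inv]; rfl⟩, Or.inl ?_⟩
        rw [mul_inv_rev, al_inv, mul_assoc]

/-- Every path gives an elementary path of twice the length. -/
theorem exists_EP {T : ℕ} {p : ℕ → G} (h : IsPath (cay SG) T p) :
    ∃ g : ℕ → G, EP (2 * T) g ∧ g 0 = p 0 ∧ g (2 * T) = p T ∧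
      ∀ t ≤ 2 * T, ∃ t' ≤ T, (cay SG).dist (g t) (p t') ≤ 1 := by
  classical
  choose! z hz1 hz2 using fun (t : ℕ) (ht : t < T) => split_step (h t ht)
  refine ⟨fun t => if t % 2 = 0 then p (t / 2) else z (t / 2), ?_, by simp, by simp, ?_⟩
  · intro t ht
    by_cases h2 : t % 2 = 0
    · have h3 : (t + 1) % 2 ≠ 0 := by omega
      have h4 : (t + 1) / 2 = t / 2 := by omega
      simp only [h2, h3, if_true, if_false, h4]
      exact hz1 (t / 2) (by omega)
    · have h3 : (t + 1) % 2 = 0 := by omega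
      have h4 : (t + 1) / 2 = t / 2 + 1 := by omega
      simp only [h2, h3, if_true, if_false, h4]
      exact hz2 (t / 2) (by omega)
  · intro t ht
    by_cases h2 : t % 2 = 0
    · exact ⟨t / 2, by omega, by simp [h2]⟩
    · refine ⟨t / 2, by omega, ?_⟩
      simp only [h2, if_false]
      rw [SimpleGraph.dist_comm]
      exact (hz1 (t / 2) (by omega)).dist_le

open Classical in
/-- Toggle at time `t`. -/
noncomputable def tog (g : ℕ → G) (t : ℕ) : Option Pol :=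
  if g (t + 1) = g t * al then some ((g t).right • x0) else none

/-- The toggles between times `s` and `t`. -/
noncomputable def wl (g : ℕ → G) (s t : ℕ) : List Pol := (List.range' s (t - s)).filterMap (tog g)

theorem mul_al_left (x : G) : (x * al).left = x.left * lmp (x.right • x0) := by
  rw [mul_left]
  rfl

theorem mul_al_right (x : G) : (x * al).right = x.right := by
  rw [mul_right]
  simp [al]

theorem mul_inr_left (x : G) (r : Q) : (x * inr r).left = x.left := by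
  rw [mul_left]
  simp

theorem mul_inr_right (x : G) (r : Q) : (x * inr r).right = x.right * r := by
  rw [mul_right]
  simp

theorem wl_self (g : ℕ → G) (s : ℕ) : wl g s s = [] := by simp [wl]

theorem wl_succ (g : ℕ → G) {s t : ℕ} (h : s ≤ t) :
    wl g s (t + 1) = wl g s t ++ (tog g t).toList := by
  unfold wl
  have h1 : t + 1 - s = (t - s) + 1 := by omega
  have h2 : s + (t - s) = t := by omega
  rw [h1, List.range'_concat, List.filterMap_append]
  simp only [one_mul, h2]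
  cases h3 : tog g t <;> simp [h3]

theorem wl_append (g : ℕ → G) {s t u : ℕ} (h : s ≤ t) (h' : t ≤ u) :
    wl g s u = wl g s t ++ wl g t u := by
  induction u, h' using Nat.le_induction with
  | base => simp [wl_self]
  | succ u hu ih => rw [wl_succ g (h.trans hu), wl_succ g hu, ih, List.append_assoc]

theorem left_wl {T : ℕ} {g : ℕ → G} (hg : EP T g) {s t : ℕ} (h : s ≤ t) (ht : t ≤ T) :
    (g t).left = (g s).left * ((wl g s t).map lmp).prod := by
  induction t, h using Nat.le_induction with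
  | base => simp [wl_self]
  | succ t hst ih =>
    rw [wl_succ g hst]
    have ih' := ih (by omega)
    rcases hg t (by omega) with h1 | ⟨r, hr, h1⟩
    · have h2 : tog g t = some ((g t).right • x0) := by simp [tog, h1]
      rw [h2, h1, mul_al_left, ih']
      simp [mul_assoc]
    · have h2 : tog g t = none := by
        unfold tog
        rw [if_neg]
        rw [h1]
        intro h3
        exact al_ne_inr r (mul_left_cancel h3).symm
      rw [h2, h1, mul_inr_left, ih']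
      simp

end Pool.Agent.H20.Morse
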