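import Pool.Agent.H20.Morse.C1

/-! Module C, part 2: thinning of paths, geometry of `Q` (MP_b587bd_al, helper20). -/

set_option autoImplicit false

namespace Pool.Agent.H20.Morse

open SemidirectProduct

/-- An element of `G` given by its two parts. -/
def mkG (n : N) (q : Q) : G := ⟨n, q⟩

theorem mkG_al (n : N) (q : Q) : mkG n q * al = mkG (n * lmp (q • x0)) q := by
  apply SemidirectProduct.ext
  · exact mul_al_left _
  · exact mul_al_right _

theorem mkG_inr (n : N) (q r : Q) : mkG n q * inr r = mkG n (q * r) := by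
  apply SemidirectProduct.ext
  · exact mul_inr_left _ _
  · exact mul_inr_right _ _

theorem mkG_eta (x : G) : mkG x.left x.right = x := rfl

theorem El_of_QM (n : N) (q r : Q) (hr : QM r) : El (mkG n q) (mkG n (q * r)) :=
  Or.inr ⟨r, hr, (mkG_inr n q r).symm⟩

theorem El_tog (n : N) (q : Q) : El (mkG n q) (mkG (n * lmp (q • x0)) q) :=
  Or.inl (mkG_al n q).symm

/-- Thinning a path: perform only some of the toggles. -/
theorem thin {T : ℕ} {g : ℕ → G} (hg : EP T g) {s t : ℕ} (h : s ≤ t) (ht : t ≤ T) :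
    ∀ E : List Pol, E.Sublist (wl g s t) →
      (cay SG).dist (g s) (mkG ((g s).left * (E.map lmp).prod) (g t).right) ≤ t - s := by
  have hc := cay_connected closure_SG
  induction t, h using Nat.le_induction with
  | base =>
    intro E hE
    rw [wl_self, List.sublist_nil] at hE
    subst hE
    simp [mkG_eta]
  | succ t hst ih =>
    intro E hE
    rw [wl_succ g hst] at hE
    have ih' := ih (by omega)
    rcases hg t (by omega) with h1 | ⟨r, hr, h1⟩
    · have h2 : tog g t = some ((g t).right • x0) := by simp [tog, h1]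
      rw [h2] at hE
      have h3 : (g (t + 1)).right = (g t).right := by rw [h1, mul_al_right]
      rw [h3]
      obtain ⟨E1, E2, rfl, hE1, hE2⟩ := List.sublist_append_iff.mp hE
      have h4 := ih' E1 hE1
      have h5 : E2 = [] ∨ E2 = [(g t).right • x0] := by
        have : E2.Sublist [(g t).right • x0] := hE2
        rcases List.sublist_singleton.mp this with h | h
        · exact Or.inl h
        · exact Or.inr h
      rcases h5 with rfl | rfl
      · rw [List.append_nil]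
        omega
      · have h6 := (El_tog ((g s).left * (E1.map lmp).prod) (g t).right).dist_le
        have h7 : (g s).left * ((E1 ++ [(g t).right • x0]).map lmp).prod
            = (g s).left * (E1.map lmp).prod * lmp ((g t).right • x0) := by
          simp [mul_assoc]
        rw [h7]
        have h8 : (cay SG).dist (g s)
            (mkG ((g s).left * (E1.map lmp).prod * lmp ((g t).right • x0)) (g t).right)
            ≤ (cay SG).dist (g s) (mkG ((g s).left * (E1.map lmp).prod) (g t).right)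
              + (cay SG).dist (mkG ((g s).left * (E1.map lmp).prod) (g t).right)
                (mkG ((g s).left * (E1.map lmp).prod * lmp ((g t).right • x0)) (g t).right) :=
          hc.dist_triangle
        omega
    · have h2 : tog g t = none := by
        unfold tog
        rw [if_neg]
        rw [h1]
        intro h3
        exact al_ne_inr r (mul_left_cancel h3).symm
      rw [h2] at hE
      have h3 : (g (t + 1)).right = (g t).right * r := by rw [h1, mul_inr_right]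
      rw [h3]
      have hE' : E.Sublist (wl g s t) := by simpa using hE
      have h4 := ih' E hE'
      have h6 := (El_of_QM ((g s).left * (E.map lmp).prod) (g t).right r hr).dist_le
      have h8 : (cay SG).dist (g s) (mkG ((g s).left * (E.map lmp).prod) ((g t).right * r))
          ≤ (cay SG).dist (g s) (mkG ((g s).left * (E.map lmp).prod) (g t).right)
            + (cay SG).dist (mkG ((g s).left * (E.map lmp).prod) (g t).right)
              (mkG ((g s).left * (E.map lmp).prod) ((g t).right * r)) :=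
        hc.dist_triangle
      omega

/-- Bounds for a product of `d` elementary moves. -/
def Small (d : ℤ) (v : Q) : Prop :=
  |v.h| ≤ d ∧ |v.a| ≤ d ∧ |v.b| ≤ d * (2 * d + 1) ∧ |v.c| ≤ d * (d + 1) ^ 2

theorem small_step {d : ℤ} (hd : 0 ≤ d) {v r : Q} (hv : Small d v)
    (hr : |r.h| ≤ 1 ∧ |r.a| ≤ 1 ∧ |r.b| ≤ 1 ∧ |r.c| ≤ 1) : Small (d + 1) (v * r) := by
  obtain ⟨h1, h2, h3, h4⟩ := hv
  obtain ⟨r1, r2, r3, r4⟩ := hr
  have hh2 : v.h ^ 2 ≤ d ^ 2 := by
    rw [← sq_abs]
    exact pow_le_pow_left₀ (abs_nonneg _) h1 2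
  have hh0 : 0 ≤ v.h ^ 2 := sq_nonneg _
  refine ⟨?_, ?_, ?_, ?_⟩
  · rw [Q.mul_h]
    exact (abs_add_le _ _).trans (by linarith)
  · rw [Q.mul_a]
    exact (abs_add_le _ _).trans (by linarith)
  · rw [Q.mul_b]
    have e1 : |2 * r.a * v.h| ≤ 2 * d := by
      rw [abs_mul, abs_mul]
      have : |r.a| * |v.h| ≤ 1 * d := mul_le_mul r2 h1 (abs_nonneg _) (by norm_num)
      have e2 : |(2:ℤ)| = 2 := rfl
      rw [e2]
      linarith
    calc |v.b + r.b + 2 * r.a * v.h| ≤ |v.b + r.b| + |2 * r.a * v.h| := abs_add_le _ _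
      _ ≤ |v.b| + |r.b| + |2 * r.a * v.h| := by linarith [abs_add_le v.b r.b]
      _ ≤ _ := by nlinarith
  · rw [Q.mul_c]
    have e1 : |r.b * v.h| ≤ d := by
      rw [abs_mul]
      have : |r.b| * |v.h| ≤ 1 * d := mul_le_mul r3 h1 (abs_nonneg _) (by norm_num)
      linarith
    have e2 : |r.a * v.h ^ 2| ≤ d ^ 2 := by
      rw [abs_mul, abs_of_nonneg hh0]
      have : |r.a| * v.h ^ 2 ≤ 1 * d ^ 2 := mul_le_mul r2 hh2 hh0 (by norm_num)
      linarith
    calc |v.c + r.c + r.b * v.h + r.a * v.h ^ 2|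
        ≤ |v.c + r.c + r.b * v.h| + |r.a * v.h ^ 2| := abs_add_le _ _
      _ ≤ |v.c + r.c| + |r.b * v.h| + |r.a * v.h ^ 2| := by
          linarith [abs_add_le (v.c + r.c) (r.b * v.h)]
      _ ≤ |v.c| + |r.c| + |r.b * v.h| + |r.a * v.h ^ 2| := by linarith [abs_add_le v.c r.c]
      _ ≤ _ := by nlinarith

theorem small_path {T : ℕ} {g : ℕ → G} (hg : EP T g) {s t : ℕ} (h : s ≤ t) (ht : t ≤ T) :
    Small ((t - s : ℕ) : ℤ) ((g s).right⁻¹ * (g t).right) := by
  induction t, h using Nat.le_induction with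
  | base => simp [Small]
  | succ t hst ih =>
    have ih' := ih (by omega)
    have e1 : ((t + 1 - s : ℕ) : ℤ) = ((t - s : ℕ) : ℤ) + 1 := by
      have : t + 1 - s = (t - s) + 1 := by omega
      rw [this]
      push_cast
      ring
    rw [e1]
    rcases hg t (by omega) with h1 | ⟨r, hr, h1⟩
    · have h3 : (g (t + 1)).right = (g t).right := by rw [h1, mul_al_right]
      rw [h3]
      have := small_step (r := 1) (by positivity) ih' (by simp)
      rwa [mul_one] at this
    · have h3 : (g (t + 1)).right = (g t).right * r := by rw [h1, mul_inr_right]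
      rw [h3, ← mul_assoc]
      exact small_step (by positivity) ih' hr.2

/-- The polynomial `(x+m)²`. -/
def yy (m : ℤ) : Pol := ⟨m ^ 2, 2 * m, 1⟩

/-- Positions at which the lamp `yy m` can be toggled. -/
theorem pos_of_yy {q : Q} {m : ℤ} (h : q • x0 = yy m) :
    q.a = 0 ∧ q.b = 2 * (m - q.h) ∧ q.c = m ^ 2 - q.h ^ 2 := by
  have h1 := congrArg Pol.a h
  have h2 := congrArg Pol.b h
  have h3 := congrArg Pol.c h
  simp only [Q.smul_a, Q.smul_b, Q.smul_c, x0, yy] at h1 h2 h3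
  refine ⟨by linarith, by linarith, by linarith⟩

/-- Separation of the lines of `yy m` and `yy (m+1)`. -/
theorem separation {q q' : Q} {m : ℤ} {d : ℤ} (hd : 0 ≤ d) (h : q • x0 = yy m)
    (h' : q' • x0 = yy (m + 1)) (hs : Small d (q⁻¹ * q')) :
    |q.h - m| ≤ 2 * (d + 1) ^ 3 := by
  obtain ⟨a1, a2, a3⟩ := pos_of_yy h
  obtain ⟨b1, b2, b3⟩ := pos_of_yy h'
  obtain ⟨h1, _, _, h4⟩ := hs
  rw [Q.mul_h, Q.inv_h] at h1
  rw [Q.mul_c, Q.inv_c, Q.inv_h, a1, a2, a3, b1, b2, b3] at h4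
  set η := q.h - m with hη
  set j := -q.h + q'.h with hj
  have e1 : q.h = η + m := by rw [hη]; ring
  have e2 : q'.h = j + η + m := by rw [hj, hη]; ring
  have e3 : -(m ^ 2 - q.h ^ 2 - 2 * (m - q.h) * q.h + 0 * q.h ^ 2) +
      ((m + 1) ^ 2 - q'.h ^ 2) + 2 * (m + 1 - q'.h) * -q.h + 0 * (-q.h) ^ 2
      = 1 - j ^ 2 - 2 * η := by
    rw [e1, e2]
    ring
  rw [e3] at h4
  have h5 : j ^ 2 ≤ d ^ 2 := by
    rw [← sq_abs]
    exact pow_le_pow_left₀ (abs_nonneg _) h1 2
  rw [abs_le] at h4 ⊢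
  obtain ⟨h6, h7⟩ := h4
  constructor <;> nlinarith [sq_nonneg j, mul_nonneg hd hd, mul_nonneg (mul_nonneg hd hd) hd]

/-- Upper bound for the distance between two positions. -/
theorem dist_zpow_le (x s : G) (M : ℕ) (hs : ∀ x : G, (cay SG).dist x (x * s) ≤ M) (z : ℤ) :
    (cay SG).dist x (x * s ^ z) ≤ M * z.natAbs := by
  have hc := cay_connected closure_SG
  have hnat : ∀ (k : ℕ) (x : G), (cay SG).dist x (x * s ^ k) ≤ M * k := by
    intro k
    induction k with
    | zero => intro x; simp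
    | succ k ih =>
      intro x
      rw [pow_succ, ← mul_assoc]
      have h1 : (cay SG).dist x (x * s ^ k * s) ≤ (cay SG).dist x (x * s ^ k) +
        (cay SG).dist (x * s ^ k) (x * s ^ k * s) := hc.dist_triangle
      have h2 := ih x
      have h3 := hs (x * s ^ k)
      have h4 : M * (k + 1) = M * k + M := by ring
      omega
  obtain ⟨k, rfl | rfl⟩ := z.eq_nat_or_neg
  · simpa using hnat k x
  · have h1 := hnat k (x * s ^ (-(k:ℤ)))
    rw [SimpleGraph.dist_comm]
    simpa [mul_assoc] using h1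

/-- The generator of the stabilizer of the base lamp. -/
def rho : G := e1⁻¹ * e2⁻¹ * e2⁻¹ * sh

theorem rho_zpow (z : ℤ) : rho ^ z = inr (⟨-z ^ 2, -2 * z, 0, z⟩ : Q) := by
  have h1 : rho = inr (⟨-1, -2, 0, 1⟩ : Q) := by
    unfold rho e1 e2 sh
    rw [← map_inv, ← map_inv, ← map_mul, ← map_mul, ← map_mul]
    rfl
  rw [h1]
  have := zpow_of_add (fun z => (inr (⟨-z ^ 2, -2 * z, 0, z⟩ : Q) : G)) (fun x y => by
    rw [← map_mul]; congr 1; ext <;> simp <;> ring) z
  simpa using this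

theorem dist_rho (x : G) : (cay SG).dist x (x * rho) ≤ 4 := by
  have hc := cay_connected closure_SG
  unfold rho
  have a1 : (cay SG).dist x (x * e1⁻¹) ≤ 1 := cay_dist_step (Or.inr (by simpa using e1_mem_SG))
  have a2 : (cay SG).dist (x * e1⁻¹) (x * e1⁻¹ * e2⁻¹) ≤ 1 :=
    cay_dist_step (Or.inr (by simpa using e2_mem_SG))
  have a3 : (cay SG).dist (x * e1⁻¹ * e2⁻¹) (x * e1⁻¹ * e2⁻¹ * e2⁻¹) ≤ 1 :=
    cay_dist_step (Or.inr (by simpa using e2_mem_SG))
  have a4 : (cay SG).dist (x * e1⁻¹ * e2⁻¹ * e2⁻¹) (x * e1⁻¹ * e2⁻¹ * e2⁻¹ * sh) ≤ 1 :=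
    cay_dist_step (Or.inl sh_mem_SG)
  have b1 : (cay SG).dist x (x * e1⁻¹ * e2⁻¹) ≤ _ := hc.dist_triangle (v := x * e1⁻¹)
  have b2 : (cay SG).dist x (x * e1⁻¹ * e2⁻¹ * e2⁻¹) ≤ _ :=
    hc.dist_triangle (v := x * e1⁻¹ * e2⁻¹)
  have b3 : (cay SG).dist x (x * e1⁻¹ * e2⁻¹ * e2⁻¹ * sh) ≤ _ :=
    hc.dist_triangle (v := x * e1⁻¹ * e2⁻¹ * e2⁻¹)
  have e : x * (e1⁻¹ * e2⁻¹ * e2⁻¹ * sh) = x * e1⁻¹ * e2⁻¹ * e2⁻¹ * sh := by
    simp only [mul_assoc]
  rw [e]
  omega

/-- From a toggling position of `yy m` to the position `s^m'` of the ray. -/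
theorem dist_line (n : N) {q : Q} {m : ℤ} (h : q • x0 = yy m) (m' : ℤ) :
    (cay SG).dist (mkG n q) (mkG n ⟨0, 0, 0, m'⟩)
      ≤ 4 * (q.h - m).natAbs + (m' - m).natAbs := by
  have hc := cay_connected closure_SG
  obtain ⟨a1, a2, a3⟩ := pos_of_yy h
  have h1 : mkG n q * rho ^ (-(q.h - m)) = mkG n ⟨0, 0, 0, m⟩ := by
    rw [rho_zpow, mkG_inr]
    congr 1
    ext
    · simp [a2, a3]; ring
    · simp [a2]
    · simp [a1]
    · simp
  have h2 : mkG n ⟨0, 0, 0, m⟩ * sh ^ (m' - m) = mkG n ⟨0, 0, 0, m'⟩ := by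
    rw [sh_zpow, mkG_inr]
    congr 1
    ext <;> simp
  have h3 := dist_zpow_le (mkG n q) rho 4 dist_rho (-(q.h - m))
  rw [h1, Int.natAbs_neg] at h3
  have h4 := dist_zpow_le (mkG n ⟨0, 0, 0, m⟩) sh 1
    (fun x => cay_dist_step (Or.inl sh_mem_SG)) (m' - m)
  rw [h2, one_mul] at h4
  have h5 : (cay SG).dist (mkG n q) (mkG n ⟨0, 0, 0, m'⟩)
      ≤ (cay SG).dist (mkG n q) (mkG n ⟨0, 0, 0, m⟩)
        + (cay SG).dist (mkG n ⟨0, 0, 0, m⟩) (mkG n ⟨0, 0, 0, m'⟩) := hc.dist_triangle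
  omega

/-- Run bound: a lamp is not adjacent to three equally spaced lamps of the ray. -/
theorem run_bound {u : Pol} {m b : ℤ} (h0 : Adj u (yy m)) (h1 : Adj u (yy (m + b)))
    (h2 : Adj u (yy (m + 2 * b))) : b ^ 2 ≤ 4 * |u.a| := by
  obtain ⟨ha, d0⟩ := h0
  obtain ⟨_, d1⟩ := h1
  obtain ⟨_, d2⟩ := h2
  simp only [yy] at ha d0 d1 d2
  set D0 := (u.b - 2 * m) ^ 2 - 4 * (u.a - 1) * (u.c - m ^ 2) with hD0
  set D1 := (u.b - 2 * (m + b)) ^ 2 - 4 * (u.a - 1) * (u.c - (m + b) ^ 2) with hD1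
  set D2 := (u.b - 2 * (m + 2 * b)) ^ 2 - 4 * (u.a - 1) * (u.c - (m + 2 * b) ^ 2) with hD2
  have key : D0 - 2 * D1 + D2 = 8 * u.a * b ^ 2 := by
    rw [hD0, hD1, hD2]
    ring
  rw [abs_le] at d0 d1 d2
  have k1 : 8 * u.a * b ^ 2 ≤ 8 * (u.a - 1) ^ 2 := by
    rw [← key]; linarith
  have k2 : -(8 * (u.a - 1) ^ 2) ≤ 8 * u.a * b ^ 2 := by
    rw [← key]; linarith
  rcases le_or_gt 0 (u.a - 1) with hpos | hneg
  · rw [abs_of_nonneg hpos] at ha
    have hu : 3 ≤ u.a := by linarith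
    rw [abs_of_nonneg (by linarith)]
    nlinarith [sq_nonneg b]
  · rw [abs_of_neg hneg] at ha
    have hu : u.a ≤ -1 := by linarith
    rw [abs_of_nonpos (by linarith)]
    nlinarith [sq_nonneg b]

theorem not_adj_yy (m m' : ℤ) : ¬ Adj (yy m) (yy m') := by
  rintro ⟨h, _⟩
  simp [yy] at h

theorem yy_inj {m m' : ℤ} (h : yy m = yy m') : m = m' := by
  have := congrArg Pol.b h
  simp only [yy] at this
  linarith

end Pool.Agent.H20.Morse
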