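import Pool.Agent.H20.Morse.C2

/-! Module C, part 3: superlinear lower divergence of the ray (MP_b587bd_al, helper20). -/

set_option autoImplicit false

namespace Pool.Agent.H20.Morse

open SemidirectProduct

theorem tog_some {g : ℕ → G} {t : ℕ} {u : Pol} (h : tog g t = some u) :
    g (t + 1) = g t * al ∧ u = (g t).right • x0 := by
  unfold tog at h
  split_ifs at h with h1
  exact ⟨h1, (Option.some.inj h).symm⟩

theorem mem_wl {g : ℕ → G} {T : ℕ} {u : Pol} (h : u ∈ wl g 0 T) :
    ∃ t < T, tog g t = some u := by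
  induction T with
  | zero => simp [wl_self] at h
  | succ T ih =>
    rw [wl_succ g (Nat.zero_le T), List.mem_append] at h
    rcases h with h | h
    · obtain ⟨t, ht, h1⟩ := ih h
      exact ⟨t, by omega, h1⟩
    · refine ⟨T, by omega, ?_⟩
      simpa using h

theorem idx {g : ℕ → G} {T : ℕ} {j : ℕ} {u : Pol} (h : (wl g 0 T)[j]? = some u) :
    ∃ t < T, tog g t = some u ∧ (wl g 0 t).length = j := by
  induction T with
  | zero => simp [wl_self] at h
  | succ T ih =>
    rw [wl_succ g (Nat.zero_le T)] at h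
    by_cases hj : j < (wl g 0 T).length
    · rw [List.getElem?_append_left hj] at h
      obtain ⟨t, ht, h1⟩ := ih h
      exact ⟨t, by omega, h1⟩
    · rw [List.getElem?_append_right (by omega)] at h
      refine ⟨T, by omega, ?_⟩
      cases h1 : tog g T with
      | none => simp [h1] at h
      | some v =>
        rw [h1] at h
        have h2 : j - (wl g 0 T).length = 0 := by
          by_contra h3
          have : (Option.some v).toList[j - (wl g 0 T).length]? = none := by
            apply List.getElem?_eq_none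
            simp
            omega
          rw [this] at h
          cases h
        rw [h2] at h
        simp at h
        exact ⟨by rw [h], by omega⟩

theorem wl_length_mono (g : ℕ → G) {s t : ℕ} (h : s ≤ t) :
    (wl g 0 s).length ≤ (wl g 0 t).length := by
  rw [wl_append g (Nat.zero_le s) h, List.length_append]
  omega

theorem take_wl {g : ℕ → G} {T t j : ℕ} {u : Pol} (ht : t < T) (h1 : tog g t = some u)
    (h2 : (wl g 0 t).length = j) : (wl g 0 T).take (j + 1) = wl g 0 (t + 1) := by
  rw [wl_append g (Nat.zero_le (t + 1)) (by omega : t + 1 ≤ T)]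
  apply List.take_left'
  rw [wl_succ g (Nat.zero_le t), h1]
  simp [h2]

theorem slice_wl {g : ℕ → G} {T t t' j j' : ℕ} {u : Pol} (ht : t < t') (ht' : t' < T)
    (h1 : tog g t = some u) (h2 : (wl g 0 t).length = j)
    (h2' : (wl g 0 t').length = j') :
    ((wl g 0 T).drop (j + 1)).take (j' - j - 1) = wl g (t + 1) t' := by
  have e0 : (wl g 0 (t + 1)).length = j + 1 := by
    rw [wl_succ g (Nat.zero_le t), h1]
    simp [h2]
  have e1 : (wl g 0 t').length = (wl g 0 (t + 1)).length + (wl g (t + 1) t').length := by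
    rw [wl_append g (Nat.zero_le (t + 1)) (by omega : t + 1 ≤ t'), List.length_append]
  rw [wl_append g (Nat.zero_le (t + 1)) (by omega : t + 1 ≤ T), List.drop_left' e0,
    wl_append g (by omega : t + 1 ≤ t') (by omega : t' ≤ T)]
  apply List.take_left'
  omega

theorem ray_left (m : ℕ) : (ray m).left = ((List.range m).map (fun l : ℕ => lmp (yy (l:ℤ)))).prod := by
  induction m with
  | zero => rfl
  | succ m ih =>
    rw [ray_succ, ← mul_assoc, show sh = inr (⟨0, 0, 0, 1⟩ : Q) from rfl, mul_inr_left,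
      mul_al_left, ih, List.range_succ, List.map_append, List.prod_append, ray_right]
    simp only [List.map_cons, List.map_nil, List.prod_cons, List.prod_nil, mul_one]
    congr 2
    ext <;> simp [x0, yy]

theorem ray_left_add (i n : ℕ) : (ray (i + n)).left =
    (ray i).left * ((List.range n).map (fun l : ℕ => lmp (yy ((i + l : ℕ) : ℤ)))).prod := by
  rw [ray_left, ray_left, List.range_add, List.map_append, List.prod_append]
  congr 2
  rw [List.map_map]
  rfl

theorem ray_eq (m : ℕ) : ray m = mkG (ray m).left ⟨0, 0, 0, m⟩ := by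
  rw [← ray_right]
  rfl

/-- Summation of increments over windows. -/
theorem sum_windows (τ : ℕ → ℤ) (T : ℤ) (K M B : ℕ) (h0 : ∀ l ≤ K + B + M, 0 ≤ τ l)
    (hT : ∀ l ≤ K + B + M, τ l ≤ T) :
    ∑ m ∈ Finset.range M, (τ (K + B + m) - τ (K + m)) ≤ B * T := by
  have e1 : ∀ m : ℕ, τ (K + B + m) - τ (K + m)
      = ∑ b ∈ Finset.range B, (τ (K + m + (b + 1)) - τ (K + m + b)) := by
    intro m
    rw [Finset.sum_range_sub (fun b => τ (K + m + b))]
    congr 2
    omega
  calc ∑ m ∈ Finset.range M, (τ (K + B + m) - τ (K + m))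
      = ∑ m ∈ Finset.range M, ∑ b ∈ Finset.range B, (τ (K + m + (b + 1)) - τ (K + m + b)) :=
        Finset.sum_congr rfl (fun m _ => e1 m)
    _ = ∑ b ∈ Finset.range B, ∑ m ∈ Finset.range M, (τ (K + m + (b + 1)) - τ (K + m + b)) :=
        Finset.sum_comm
    _ ≤ ∑ b ∈ Finset.range B, T := by
        apply Finset.sum_le_sum
        intro b hb
        rw [Finset.mem_range] at hb
        have e2 : ∀ m : ℕ, τ (K + m + (b + 1)) - τ (K + m + b)
            = τ (K + b + (m + 1)) - τ (K + b + m) := by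
          intro m
          congr 2 <;> omega
        rw [Finset.sum_congr rfl (fun m _ => e2 m), Finset.sum_range_sub (fun m => τ (K + b + m))]
        have h1 := hT (K + b + M) (by omega)
        have h2 := h0 (K + b + 0) (by omega)
        linarith
    _ = B * T := by simp

theorem params (c R : ℕ) (hc : 1 ≤ c) (hR : 2 ^ 33 * c ^ 3 ≤ R) :
    ∃ b : ℕ, 4 * (c * R + 1) < b ^ 2 ∧ 16384 * c * b < R := by
  refine ⟨Nat.sqrt (4 * (c * R + 1)) + 1, ?_, ?_⟩
  · have := Nat.lt_succ_sqrt (4 * (c * R + 1))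
    rw [sq]
    exact this
  · set s := Nat.sqrt (4 * (c * R + 1)) with hs
    have h1 : s * s ≤ 4 * (c * R + 1) := Nat.sqrt_le _
    by_contra hcon
    rw [not_lt] at hcon
    have h2 : (s + 1) * (s + 1) ≤ 8 * (c * R) + 10 := by nlinarith [sq_nonneg ((s:ℤ) - 1), Nat.zero_le s, mul_self_nonneg ((s:ℤ) - 1)]
    have h3 : R * R ≤ (16384 * c * (s + 1)) * (16384 * c * (s + 1)) := Nat.mul_le_mul hcon hcon
    have h4 : (16384 * c * (s + 1)) * (16384 * c * (s + 1))
        = 16384 ^ 2 * c ^ 2 * ((s + 1) * (s + 1)) := by ring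
    have h5 : 16384 ^ 2 * c ^ 2 * ((s + 1) * (s + 1)) ≤ 16384 ^ 2 * c ^ 2 * (8 * (c * R) + 10) :=
      Nat.mul_le_mul_left _ h2
    have h6 : 16384 ^ 2 * c ^ 2 * (8 * (c * R) + 10) = 2 ^ 31 * c ^ 3 * R + 10 * 2 ^ 28 * c ^ 2 := by
      ring
    have h7 : 2 ^ 33 * c ^ 3 * R ≤ R * R := Nat.mul_le_mul_right R hR
    have hc3 : 1 ≤ c ^ 3 := Nat.one_le_pow _ _ hc
    have hR1 : 1 ≤ R := le_trans (by nlinarith) hR
    have h8 : c ^ 2 ≤ c ^ 3 := Nat.pow_le_pow_right hc (by norm_num)
    have h9 : c ^ 3 ≤ c ^ 3 * R := Nat.le_mul_of_pos_right _ hR1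
    have h10 : 2 ^ 33 * (c ^ 3 * R) ≤ 2 ^ 31 * (c ^ 3 * R) + 10 * 2 ^ 28 * c ^ 2 := by
      have e1 : 2 ^ 33 * (c ^ 3 * R) = 2 ^ 33 * c ^ 3 * R := by ring
      have e2 : 2 ^ 31 * (c ^ 3 * R) = 2 ^ 31 * c ^ 3 * R := by ring
      rw [e1, e2]
      omega
    omega

end Pool.Agent.H20.Morse
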