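import Pool.Agent.H20.Morse.C3

/-! Module C, part 4: conclusion (MP_b587bd_al, helper20). -/

set_option autoImplicit false

namespace Pool.Agent.H20.Morse

open SemidirectProduct

theorem ray_dist_le (m n : ℕ) : ((cay SG).dist (ray m) (ray n) : ℤ) ≤ |(m : ℤ) - n| := by
  have h := ray_geo m n
  have h1 : (((cay SG).dist (ray m) (ray n) : ℤ) : ℝ) = ((|(m : ℤ) - n| : ℤ) : ℝ) := by
    push_cast
    exact h
  exact le_of_eq (by exact_mod_cast h1)

theorem final_arith (R c b M T2 : ℤ) (hc : 1 ≤ c) (hR : 0 < R) (hM : R ≤ 128 * M)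
    (hT2 : T2 ≤ c * R) (hb0 : 0 ≤ b) (hb : 16384 * c * b < R)
    (h : M * (R * (256 * c)) ≤ R * T2 + 32 * (256 * c) * (2 * b * T2)) : False := by
  have h1 : R * T2 ≤ R * (c * R) := mul_le_mul_of_nonneg_left hT2 hR.le
  have h2 : 32 * (256 * c) * (2 * b * T2) ≤ 32 * (256 * c) * (2 * b * (c * R)) := by
    apply mul_le_mul_of_nonneg_left _ (by positivity)
    apply mul_le_mul_of_nonneg_left hT2 (by positivity)
  have h3 : M * (R * (256 * c)) ≤ R * (c * R) + 32 * (256 * c) * (2 * b * (c * R)) := by linarith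
  have h4 : R * (R * (256 * c)) ≤ 128 * M * (R * (256 * c)) :=
    mul_le_mul_of_nonneg_right hM (by positivity)
  have h5 : R * (R * (256 * c)) ≤ 128 * (R * (c * R) + 32 * (256 * c) * (2 * b * (c * R))) := by
    calc R * (R * (256 * c)) ≤ 128 * M * (R * (256 * c)) := h4
      _ = 128 * (M * (R * (256 * c))) := by ring
      _ ≤ _ := mul_le_mul_of_nonneg_left h3 (by norm_num)
  have h6 : (R * (128 * c)) * R ≤ (R * (128 * c)) * (16384 * c * b) := by nlinarith
  have h7 : R ≤ 16384 * c * b := le_of_mul_le_mul_left h6 (by positivity)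
  linarith

theorem targetC_of_E (hE : TargetE) : TargetC := by
  intro C'
  set c := 2 * C' + 1 with hc
  refine ⟨2 ^ 33 * c ^ 3, ?_⟩
  intro R hR i k j hik hkj T p hT hp0 hpT hp
  by_contra hcon
  push Not at hcon
  obtain ⟨g, hg, hg0, hgT, hgd⟩ := exists_EP hp
  have hconn := cay_connected closure_SG
  have hc1 : 1 ≤ c := by omega
  have hc3 : 1 ≤ c ^ 3 := Nat.one_le_pow _ _ hc1
  have hR33 : 2 ^ 33 ≤ R := le_trans (by nlinarith) hR
  obtain ⟨b, hb1, hb2⟩ := params c R hc1 hR
  have hb0 : 1 ≤ b := by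
    by_contra h
    have : b = 0 := by omega
    subst this
    simp at hb1
  have hT2 : 2 * T ≤ c * R := by
    have : c * R = 2 * (C' * R) + R := by rw [hc]; ring
    omega
  have hbR : 16384 * b < R := by
    have : 16384 * b ≤ 16384 * c * b := by nlinarith
    omega
  have havoid : ∀ t ≤ 2 * T, R < 8 * (cay SG).dist (g t) (ray k) := by
    intro t ht
    obtain ⟨t', ht', h1⟩ := hgd t ht
    have h2 := hcon t' ht'
    have h3 : (cay SG).dist (p t') (ray k) ≤ (cay SG).dist (p t') (g t) +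
      (cay SG).dist (g t) (ray k) := hconn.dist_triangle
    have h4 : (cay SG).dist (p t') (g t) = (cay SG).dist (g t) (p t') := SimpleGraph.dist_comm
    omega
  set n := j - i with hn
  set T2 := 2 * T with hT2def
  -- the combinatorial input
  have hprod : ((wl g 0 T2).map (Racg.lamp Adj)).prod
      = ((List.range n).map (fun l => Racg.lamp Adj (yy ((i + l : ℕ) : ℤ)))).prod := by
    have h1 := left_wl hg (Nat.zero_le T2) (le_refl _)
    rw [hg0, hgT, hp0, hpT] at h1
    have h2 := ray_left_add i n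
    have h3 : i + n = j := by omega
    rw [h3] at h2
    rw [h2] at h1
    exact (mul_left_cancel h1).symm
  obtain ⟨J, hJ1, hJ2, hJ3⟩ := hE Pol Adj (fun x y h => adj_symm h) (wl g 0 T2) n
    (fun l => yy ((i + l : ℕ) : ℤ))
    (by
      intro x _ y _ h
      have := yy_inj h
      omega)
    (by
      intro x _ y _ h
      exact not_adj_yy _ _ h)
    hprod
  have hidx : ∀ l, l < n → ∃ t, t < T2 ∧ tog g t = some (yy ((i + l : ℕ) : ℤ)) ∧
      (wl g 0 t).length = J l := fun l hl => idx (hJ1 l hl)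
  choose! τ hτ1 hτ2 hτ3 using hidx
  have hτmono : ∀ l l', l < l' → l' < n → τ l < τ l' := by
    intro l l' h h'
    by_contra hlt
    have h1 := wl_length_mono g (not_lt.mp hlt)
    rw [hτ3 l' h', hτ3 l (by omega)] at h1
    have := hJ2 l l' h h'
    omega
  -- bound on the leading coefficients of the toggled lamps
  have hua : ∀ u ∈ wl g 0 T2, |u.a| ≤ c * R + 1 := by
    intro u hu
    obtain ⟨t, ht, h1⟩ := mem_wl hu
    obtain ⟨_, h2⟩ := tog_some h1
    have h3 := (small_path hg (Nat.zero_le t) ht.le).2.1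
    rw [hg0, hp0, ray_right, Q.mul_a, Q.inv_a] at h3
    simp only [neg_zero, zero_add, Nat.sub_zero] at h3
    rw [h2, Q.smul_a]
    simp only [x0]
    have h4 : |(g t).right.a + 1| ≤ |(g t).right.a| + |1| := abs_add_le _ _
    have h5 : |(1:ℤ)| = 1 := rfl
    have h6 : (t:ℤ) ≤ c * R := by
      have : t ≤ c * R := by omega
      exact_mod_cast this
    rw [h5] at h4
    linarith
  have hrun : ∀ l, 2 * b ≤ l → l < n → ∀ u ∈ wl g 0 T2,
      ∃ l', l - 2 * b ≤ l' ∧ l' ≤ l ∧ ¬ Adj u (yy ((i + l' : ℕ) : ℤ)) := by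
    intro l hl hln u hu
    by_contra hno
    push Not at hno
    have a0 := hno (l - 2 * b) (le_refl _) (by omega)
    have a1 := hno (l - 2 * b + b) (by omega) (by omega)
    have a2 := hno l (by omega) (le_refl _)
    have e1 : ((i + (l - 2 * b + b) : ℕ) : ℤ) = ((i + (l - 2 * b) : ℕ) : ℤ) + b := by
      push_cast; ring
    have e2 : ((i + l : ℕ) : ℤ) = ((i + (l - 2 * b) : ℕ) : ℤ) + 2 * b := by
      have : i + l = (i + (l - 2 * b)) + 2 * b := by omega
      rw [this]
      push_cast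
      ring
    rw [e1] at a1
    rw [e2] at a2
    have h1 := run_bound a0 a1 a2
    have h2 := hua u hu
    have h3 : (4:ℤ) * (c * R + 1) < (b:ℤ) ^ 2 := by exact_mod_cast hb1
    linarith
  -- first key inequality
  have key1 : ∀ l, 2 * b ≤ l → l < n →
      (cay SG).dist (g (τ (l - 2 * b) + 1)) (ray (i + (l - 2 * b + 1)))
        ≤ (τ l - (τ (l - 2 * b) + 1)) + 4 * ((g (τ l)).right.h - ((i + l : ℕ) : ℤ)).natAbs
          + (2 * b - 1) := by
    intro l hl hln
    set l0 := l - 2 * b with hl0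
    have hl0l : l0 < l := by omega
    have hl0n : l0 < n := by omega
    obtain ⟨E, hE1, hE2⟩ := hJ3 l0 l hl0l hln (hrun l hl hln)
    have hlt := hτmono l0 l hl0l hln
    rw [slice_wl hlt (hτ1 l hln) (hτ2 l0 hl0n) (hτ3 l0 hl0n) (hτ3 l hln)] at hE1
    rw [take_wl (hτ1 l0 hl0n) (hτ2 l0 hl0n) (hτ3 l0 hl0n)] at hE2
    have h1 := thin hg (by omega : τ l0 + 1 ≤ τ l) (hτ1 l hln).le E hE1
    have h2 : (g (τ l0 + 1)).left * (E.map lmp).prod = (ray (i + (l0 + 1))).left := by
      rw [left_wl hg (Nat.zero_le (τ l0 + 1)) (by have := hτ1 l0 hl0n; omega), hg0, hp0,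
        ray_left_add, mul_assoc]
      congr 1
    rw [h2] at h1
    obtain ⟨_, h3⟩ := tog_some (hτ2 l hln)
    have h4 := dist_line (ray (i + (l0 + 1))).left h3.symm ((i + (l0 + 1) : ℕ) : ℤ)
    rw [← ray_eq] at h4
    have h5 : (((i + (l0 + 1) : ℕ) : ℤ) - ((i + l : ℕ) : ℤ)).natAbs = 2 * b - 1 := by
      omega
    rw [h5] at h4
    have h6 : (cay SG).dist (g (τ l0 + 1)) (ray (i + (l0 + 1)))
        ≤ (cay SG).dist (g (τ l0 + 1)) (mkG (ray (i + (l0 + 1))).left (g (τ l)).right)
          + (cay SG).dist (mkG (ray (i + (l0 + 1))).left (g (τ l)).right)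
            (ray (i + (l0 + 1))) := hconn.dist_triangle
    omega
  set M := R / 64 with hM
  set K0 := k - i with hK0
  set η : ℕ → ℕ := fun l => ((g (τ l)).right.h - ((i + l : ℕ) : ℤ)).natAbs with hη
  have key2 : ∀ m < M, R < 16 * (τ (K0 + m) - τ (K0 + m - 2 * b)) + 64 * η (K0 + m) := by
    intro m hm
    have hl : 2 * b ≤ K0 + m := by omega
    have hln : K0 + m < n := by omega
    have h1 := key1 (K0 + m) hl hln
    have hlt := hτmono (K0 + m - 2 * b) (K0 + m) (by omega) hln
    have h2 := havoid (τ (K0 + m - 2 * b) + 1) (by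
      have := hτ1 (K0 + m) hln
      omega)
    have h3 : (cay SG).dist (g (τ (K0 + m - 2 * b) + 1)) (ray k)
        ≤ (cay SG).dist (g (τ (K0 + m - 2 * b) + 1)) (ray (i + (K0 + m - 2 * b + 1)))
          + (cay SG).dist (ray (i + (K0 + m - 2 * b + 1))) (ray k) := hconn.dist_triangle
    have h4 := ray_dist_le (i + (K0 + m - 2 * b + 1)) k
    have h5 : |((i + (K0 + m - 2 * b + 1) : ℕ) : ℤ) - k| ≤ m + 2 * b := by
      rw [abs_le]
      omega
    have h6 : (cay SG).dist (ray (i + (K0 + m - 2 * b + 1))) (ray k) ≤ m + 2 * b := by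
      have := h4.trans h5
      exact_mod_cast this
    have h7 : η (K0 + m) = ((g (τ (K0 + m))).right.h - ((i + (K0 + m) : ℕ) : ℤ)).natAbs := rfl
    rw [← h7] at h1
    omega
  have key3 : ∀ l, l + 1 < n → (η l : ℤ) ≤ 2 * (((τ (l + 1) - τ l : ℕ) : ℤ) + 1) ^ 3 := by
    intro l hl
    have hlt := hτmono l (l + 1) (by omega) hl
    have h1 := small_path hg hlt.le (hτ1 (l + 1) hl).le
    obtain ⟨_, h2⟩ := tog_some (hτ2 l (by omega))
    obtain ⟨_, h3⟩ := tog_some (hτ2 (l + 1) hl)
    have e1 : ((i + (l + 1) : ℕ) : ℤ) = ((i + l : ℕ) : ℤ) + 1 := by push_cast; ring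
    rw [e1] at h3
    have h4 := separation (by positivity) h2.symm h3.symm h1
    have h5 : (η l : ℤ) = |(g (τ l)).right.h - ((i + l : ℕ) : ℤ)| := by
      simp only [hη, Int.natCast_natAbs]
    rw [h5]
    exact h4
  -- per-index inequality
  have key4 : ∀ m < M, (R : ℤ) * (256 * c) ≤ R * ((τ (K0 + (m + 1)) : ℤ) - τ (K0 + m))
      + 32 * (256 * c) * ((τ (K0 + m) : ℤ) - τ (K0 + m - 2 * b)) := by
    intro m hm
    have hl : K0 + m + 1 < n := by omega
    have h1 := key2 m hm
    have h2 := key3 (K0 + m) hl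
    have hlt := hτmono (K0 + m) (K0 + m + 1) (by omega) hl
    have hlt' := hτmono (K0 + m - 2 * b) (K0 + m) (by omega) (by omega)
    have hR0 : (0:ℤ) < R := by omega
    by_cases hD : τ (K0 + m + 1) - τ (K0 + m) ≤ 256 * c
    · -- small gap: the displacement is small, so the block is long
      have h3 : (η (K0 + m) : ℤ) ≤ 2 * ((256 * c : ℤ) + 1) ^ 3 := by
        refine h2.trans ?_
        have h4 : ((τ (K0 + m + 1) - τ (K0 + m) : ℕ) : ℤ) + 1 ≤ 256 * c + 1 := by
          have : ((τ (K0 + m + 1) - τ (K0 + m) : ℕ) : ℤ) ≤ ((256 * c : ℕ) : ℤ) := by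
            exact_mod_cast hD
          push_cast at this ⊢
          linarith
        have h5 := pow_le_pow_left₀ (by positivity) h4 3
        linarith
      have h6 : ((256 * c : ℤ) + 1) ^ 3 ≤ (257 * c : ℤ) ^ 3 := by
        apply pow_le_pow_left₀ (by positivity)
        have : (1:ℤ) ≤ c := by exact_mod_cast hc1
        linarith
      have h7 : 256 * (257 * c : ℤ) ^ 3 ≤ R := by
        have h8 : (2:ℤ) ^ 33 * c ^ 3 ≤ R := by exact_mod_cast hR
        have h9 : (1:ℤ) ≤ (c:ℤ) ^ 3 := by exact_mod_cast hc3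
        have h10 : 256 * (257 * c : ℤ) ^ 3 = 4345495808 * (c:ℤ) ^ 3 := by ring
        rw [h10]
        have h11 : (2:ℤ) ^ 33 = 8589934592 := by norm_num
        rw [h11] at h8
        linarith
      have h12 : (R:ℤ) ≤ 32 * ((τ (K0 + m) : ℤ) - τ (K0 + m - 2 * b)) := by
        have h13 : (R:ℤ) < 16 * ((τ (K0 + m) : ℤ) - τ (K0 + m - 2 * b)) + 64 * η (K0 + m) := by
          have := h1
          zify [hlt'.le] at this
          exact this
        linarith
      have h14 : (0:ℤ) ≤ R * ((τ (K0 + (m + 1)) : ℤ) - τ (K0 + m)) := by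
        apply mul_nonneg hR0.le
        have : K0 + (m + 1) = K0 + m + 1 := rfl
        rw [this]
        have := hlt.le
        omega
      have h15 : (R:ℤ) * (256 * c) ≤ 32 * ((τ (K0 + m) : ℤ) - τ (K0 + m - 2 * b)) * (256 * c) :=
        mul_le_mul_of_nonneg_right h12 (by positivity)
      linarith
    · rw [not_le] at hD
      have h3 : (256 * c : ℤ) ≤ (τ (K0 + (m + 1)) : ℤ) - τ (K0 + m) := by
        have e : K0 + (m + 1) = K0 + m + 1 := rfl
        rw [e]
        have h4 : ((256 * c : ℕ) : ℤ) < ((τ (K0 + m + 1) - τ (K0 + m) : ℕ) : ℤ) := by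
          exact_mod_cast hD
        rw [Nat.cast_sub hlt.le] at h4
        push_cast at h4
        linarith
      have h5 : (R:ℤ) * (256 * c) ≤ R * ((τ (K0 + (m + 1)) : ℤ) - τ (K0 + m)) :=
        mul_le_mul_of_nonneg_left h3 hR0.le
      have h6 : (0:ℤ) ≤ 32 * (256 * c) * ((τ (K0 + m) : ℤ) - τ (K0 + m - 2 * b)) := by
        apply mul_nonneg (by positivity)
        have := hlt'.le
        omega
      linarith
  -- summation
  have hsum1 : ∑ m ∈ Finset.range M, ((τ (K0 + (m + 1)) : ℤ) - τ (K0 + m)) ≤ T2 := by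
    rw [Finset.sum_range_sub (fun m => (τ (K0 + m) : ℤ))]
    have h1 := hτ1 (K0 + M) (by omega)
    omega
  have hK : K0 - 2 * b + 2 * b = K0 := by omega
  have hsum2 : ∑ m ∈ Finset.range M, ((τ (K0 + m) : ℤ) - τ (K0 + m - 2 * b)) ≤ 2 * b * T2 := by
    have h1 := sum_windows (fun l => (τ l : ℤ)) T2 (K0 - 2 * b) M (2 * b)
      (by intro l _; positivity)
      (by
        intro l hl
        have := hτ1 l (by omega)
        omega)
    rw [hK] at h1
    refine le_trans (le_of_eq (Finset.sum_congr rfl ?_)) (h1.trans (le_of_eq (by push_cast; ring)))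
    intro m _
    have : K0 + m - 2 * b = K0 - 2 * b + m := by omega
    rw [this]
  have htotal : (M : ℤ) * (R * (256 * c)) ≤ R * T2 + 32 * (256 * c) * (2 * b * T2) := by
    calc (M : ℤ) * (R * (256 * c)) = ∑ m ∈ Finset.range M, (R : ℤ) * (256 * c) := by simp
      _ ≤ ∑ m ∈ Finset.range M, ((R : ℤ) * ((τ (K0 + (m + 1)) : ℤ) - τ (K0 + m))
          + 32 * (256 * c) * ((τ (K0 + m) : ℤ) - τ (K0 + m - 2 * b))) :=
          Finset.sum_le_sum (fun m hm => key4 m (Finset.mem_range.mp hm))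
      _ = R * ∑ m ∈ Finset.range M, ((τ (K0 + (m + 1)) : ℤ) - τ (K0 + m))
          + 32 * (256 * c) * ∑ m ∈ Finset.range M, ((τ (K0 + m) : ℤ) - τ (K0 + m - 2 * b)) := by
          rw [Finset.sum_add_distrib, Finset.mul_sum, Finset.mul_sum]
      _ ≤ _ := by
          have a1 := mul_le_mul_of_nonneg_left hsum1 (by positivity : (0:ℤ) ≤ R)
          have a2 := mul_le_mul_of_nonneg_left hsum2 (by positivity : (0:ℤ) ≤ 32 * (256 * c))
          linarith
  exact final_arith R c b M T2 (by exact_mod_cast hc1) (by omega) (by omega)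
    (by exact_mod_cast hT2) (by positivity) (by exact_mod_cast hb2) htotal

end Pool.Agent.H20.Morse
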