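import Pool.Agent.H20.Morse.Defs

/-! Basic facts on Cayley graphs and paths (MP_b587bd_al, helper20). -/

set_option autoImplicit false

namespace Pool.Agent.H20.Morse

section graph
variable {V : Type} {g : SimpleGraph V}

theorem IsPath.mono {T T' : ℕ} {p : ℕ → V} (h : IsPath g T p) (hT : T' ≤ T) : IsPath g T' p :=
  fun t ht => h t (lt_of_lt_of_le ht hT)

theorem IsPath.reachable {T : ℕ} {p : ℕ → V} (h : IsPath g T p) : g.Reachable (p 0) (p T) := by
  induction T with
  | zero => exact SimpleGraph.Reachable.refl _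
  | succ T ih =>
    refine (ih (h.mono (Nat.le_succ T))).trans ?_
    rcases h T (Nat.lt_succ_self T) with h1 | h1
    · rw [h1]
    · exact h1.reachable

/-- Distance between the ends of a path. -/
theorem IsPath.exists_walk {T : ℕ} {p : ℕ → V} (h : IsPath g T p) :
    ∃ w : g.Walk (p 0) (p T), w.length ≤ T := by
  induction T with
  | zero => exact ⟨SimpleGraph.Walk.nil, le_refl _⟩
  | succ T ih =>
    obtain ⟨w, hw⟩ := ih (h.mono (Nat.le_succ T))
    rcases h T (Nat.lt_succ_self T) with h1 | h1
    · rw [← h1]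
      exact ⟨w, by omega⟩
    · exact ⟨w.concat h1, by rw [SimpleGraph.Walk.length_concat]; omega⟩

theorem IsPath.dist_le {T : ℕ} {p : ℕ → V} (h : IsPath g T p) : g.dist (p 0) (p T) ≤ T := by
  obtain ⟨w, hw⟩ := h.exists_walk
  exact (SimpleGraph.dist_le w).trans hw

theorem IsPath.shift {T : ℕ} {p : ℕ → V} (h : IsPath g T p) (s : ℕ) (hs : s ≤ T) :
    IsPath g (T - s) (fun t => p (s + t)) := by
  intro t ht
  have := h (s + t) (by omega)
  rwa [Nat.add_assoc] at this

theorem IsPath.dist_le' {T : ℕ} {p : ℕ → V} (h : IsPath g T p) {s t : ℕ} (hst : s ≤ t)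
    (ht : t ≤ T) : g.dist (p s) (p t) ≤ t - s := by
  have h1 := ((h.mono ht).shift s hst).dist_le
  simp only [Nat.add_zero] at h1
  rwa [Nat.add_sub_cancel' hst] at h1

/-- A geodesic between two points of a connected graph. -/
theorem exists_geodesic (hc : g.Connected) (x y : V) :
    ∃ p : ℕ → V, p 0 = x ∧ p (g.dist x y) = y ∧ IsPath g (g.dist x y) p ∧
      ∀ t ≤ g.dist x y, g.dist x (p t) = t ∧ g.dist (p t) y = g.dist x y - t := by
  obtain ⟨w, hw⟩ := hc.exists_walk_length_eq_dist x y
  have hp : IsPath g (g.dist x y) (fun t => w.getVert t) := by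
    intro t ht
    right
    apply SimpleGraph.Walk.adj_getVert_succ
    rw [hw]
    exact ht
  have h0 : w.getVert 0 = x := SimpleGraph.Walk.getVert_zero w
  have h1 : w.getVert (g.dist x y) = y := by
    rw [← hw]
    exact SimpleGraph.Walk.getVert_length w
  refine ⟨fun t => w.getVert t, h0, h1, hp, ?_⟩
  intro t ht
  have a1 := hp.dist_le' (Nat.zero_le t) ht
  have a2 := hp.dist_le' ht (le_refl _)
  simp only [h0, h1] at a1 a2
  have a3 : g.dist x y ≤ g.dist x (w.getVert t) + g.dist (w.getVert t) y := hc.dist_triangle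
  simp only
  omega

/-- Concatenation of two paths. -/
theorem IsPath.append {T T' : ℕ} {p p' : ℕ → V} (h : IsPath g T p) (h' : IsPath g T' p')
    (he : p T = p' 0) : ∃ r : ℕ → V, r 0 = p 0 ∧ r (T + T') = p' T' ∧ IsPath g (T + T') r ∧
      (∀ t ≤ T, r t = p t) ∧ (∀ t ≤ T', r (T + t) = p' t) := by
  refine ⟨fun t => if t ≤ T then p t else p' (t - T), by simp, ?_, ?_, ?_, ?_⟩
  · by_cases h0 : T' = 0
    · subst h0
      simp [he]
    · have : ¬ (T + T' ≤ T) := by omega
      simp [h0]
  · intro t ht
    by_cases h1 : t + 1 ≤ T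
    · have h2 : t ≤ T := by omega
      simp only [h1, h2, if_true]
      exact h t (by omega)
    · by_cases h2 : t ≤ T
      · have h3 : t = T := by omega
        subst h3
        simp only [le_refl, if_true, h1, if_false, he]
        have := h' 0 (by omega)
        simpa using this
      · simp only [h1, h2, if_false]
        have h3 := h' (t - T) (by omega)
        have h4 : t + 1 - T = t - T + 1 := by omega
        rwa [h4]
  · intro t ht
    simp [ht]
  · intro t ht
    by_cases h0 : t = 0
    · subst h0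
      simp [he]
    · have : ¬ (T + t ≤ T) := by omega
      simp [h0]

/-- Reversal of a path. -/
theorem IsPath.reverse {T : ℕ} {p : ℕ → V} (h : IsPath g T p) :
    IsPath g T (fun t => p (T - t)) := by
  intro t ht
  have h1 := h (T - (t + 1)) (by omega)
  have h2 : T - (t + 1) + 1 = T - t := by omega
  rw [h2] at h1
  rcases h1 with h1 | h1
  · exact Or.inl h1.symm
  · exact Or.inr h1.symm

/-- A function changing by at most `1` along edges is `1`-Lipschitz. -/
theorem lipschitz_dist (hc : g.Connected) (f : V → ℤ) (hf : ∀ x y, g.Adj x y → |f x - f y| ≤ 1)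
    (x y : V) : |f x - f y| ≤ g.dist x y := by
  obtain ⟨w, hw⟩ := hc.exists_walk_length_eq_dist x y
  rw [← hw]
  clear hw
  induction w with
  | nil => simp
  | @cons u v w' h p ih =>
    have h1 := hf _ _ h
    rw [SimpleGraph.Walk.length_cons]
    push_cast
    calc |f u - f w'| = |(f u - f v) + (f v - f w')| := by ring_nf
      _ ≤ |f u - f v| + |f v - f w'| := abs_add_le _ _
      _ ≤ _ := by linarith

end graph

section group
variable {Γ : Type} [Group Γ] {S : Finset Γ}

theorem cay_adj {x y : Γ} : (cay S).Adj x y ↔ x ≠ y ∧ (x⁻¹ * y ∈ S ∨ y⁻¹ * x ∈ S) := by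
  simp [cay, SimpleGraph.fromRel_adj]

/-- Left multiplication as a graph automorphism. -/
def leftIso (S : Finset Γ) (z : Γ) : (cay S) ≃g (cay S) where
  toEquiv := Equiv.mulLeft z
  map_rel_iff' := by
    intro a b
    simp only [Equiv.coe_mulLeft, cay_adj, ne_eq, mul_right_inj]
    have e1 : (z * a)⁻¹ * (z * b) = a⁻¹ * b := by group
    have e2 : (z * b)⁻¹ * (z * a) = b⁻¹ * a := by group
    rw [e1, e2]

theorem cay_adj_mul (z x y : Γ) : (cay S).Adj (z * x) (z * y) ↔ (cay S).Adj x y :=
  (leftIso S z).map_rel_iff'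

theorem cay_connected (hS : Subgroup.closure (S : Set Γ) = ⊤) : (cay S).Connected := by
  have hone : ∀ g : Γ, ∀ x : Γ, (cay S).Reachable x (x * g) := by
    intro g
    have hg : g ∈ Subgroup.closure (S : Set Γ) := by rw [hS]; trivial
    induction hg using Subgroup.closure_induction with
    | mem s hs =>
      intro x
      by_cases h1 : x = x * s
      · rw [← h1]
      · apply SimpleGraph.Adj.reachable
        rw [cay_adj]
        refine ⟨h1, Or.inl ?_⟩
        simpa using hs
    | one => intro x; simp
    | mul a b _ _ ha hb =>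
      intro x
      have := (ha x).trans (hb (x * a))
      rwa [mul_assoc] at this
    | inv a _ ha =>
      intro x
      have := ha (x * a⁻¹)
      simp only [inv_mul_cancel_right] at this
      exact this.symm
  haveI : Nonempty Γ := ⟨1⟩
  refine SimpleGraph.Connected.mk ?_
  intro x y
  have := hone (x⁻¹ * y) x
  rwa [mul_inv_cancel_left] at this

theorem cay_dist_mul_le (hS : Subgroup.closure (S : Set Γ) = ⊤) (z x y : Γ) :
    (cay S).dist (z * x) (z * y) ≤ (cay S).dist x y := by
  obtain ⟨p, h0, h1, hp, _⟩ := exists_geodesic (cay_connected hS) x y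
  have hp' : IsPath (cay S) ((cay S).dist x y) (fun t => z * p t) := by
    intro t ht
    rcases hp t ht with h | h
    · left
      simp only
      rw [h]
    · right
      rwa [cay_adj_mul]
  have := hp'.dist_le
  simpa [h0, h1] using this

theorem cay_dist_mul (hS : Subgroup.closure (S : Set Γ) = ⊤) (z x y : Γ) :
    (cay S).dist (z * x) (z * y) = (cay S).dist x y := by
  apply le_antisymm (cay_dist_mul_le hS z x y)
  have := cay_dist_mul_le hS z⁻¹ (z * x) (z * y)
  simpa using this

theorem cay_dist_one (hS : Subgroup.closure (S : Set Γ) = ⊤) (x y : Γ) :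
    (cay S).dist x y = (cay S).dist 1 (x⁻¹ * y) := by
  have := cay_dist_mul hS x⁻¹ x y
  simpa using this.symm

theorem isPath_mul {T : ℕ} {p : ℕ → Γ} (h : IsPath (cay S) T p) (z : Γ) :
    IsPath (cay S) T (fun t => z * p t) := by
  intro t ht
  rcases h t ht with h | h
  · left
    simp only
    rw [h]
  · right
    rwa [cay_adj_mul]

theorem cay_dist_step {x s : Γ} (hs : s ∈ S ∨ s⁻¹ ∈ S) : (cay S).dist x (x * s) ≤ 1 := by
  by_cases h1 : x = x * s
  · rw [← h1]
    simp
  · have h2 : (cay S).Adj x (x * s) := by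
      rw [cay_adj]
      refine ⟨h1, ?_⟩
      rcases hs with hs | hs
      · left
        simpa using hs
      · right
        simpa [mul_inv_rev] using hs
    rw [SimpleGraph.dist_eq_one_iff_adj.mpr h2]

theorem isPath_step {x s : Γ} (hs : s ∈ S ∨ s⁻¹ ∈ S) : x = x * s ∨ (cay S).Adj x (x * s) := by
  by_cases h1 : x = x * s
  · exact Or.inl h1
  · right
    rw [cay_adj]
    refine ⟨h1, ?_⟩
    rcases hs with hs | hs
    · left
      simpa using hs
    · right
      simpa [mul_inv_rev] using hs

/-- Ball of radius `T`: products of at most `T` generators or inverses. -/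
theorem exists_steps (hS : Subgroup.closure (S : Set Γ) = ⊤) (x y : Γ) :
    ∃ p : ℕ → Γ, p 0 = x ∧ p ((cay S).dist x y) = y ∧
      ∀ t < (cay S).dist x y, ∃ s, (s ∈ S ∨ s⁻¹ ∈ S) ∧ p (t + 1) = p t * s := by
  obtain ⟨w, hw⟩ := (cay_connected hS).exists_walk_length_eq_dist x y
  refine ⟨fun t => w.getVert t, SimpleGraph.Walk.getVert_zero w, ?_, ?_⟩
  · simp only
    rw [← hw]
    exact SimpleGraph.Walk.getVert_length w
  · intro t ht
    rw [← hw] at ht
    have h1 := SimpleGraph.Walk.adj_getVert_succ w ht
    rw [cay_adj] at h1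
    refine ⟨(w.getVert t)⁻¹ * w.getVert (t + 1), ?_, by simp⟩
    rcases h1.2 with h | h
    · exact Or.inl h
    · right
      simpa [mul_inv_rev] using h

end group

end Pool.Agent.H20.Morse
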