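import Pool.Agent.H20.Morse.Racg

/-! The example for MP_b587bd_al (frozen S02795): definitions and module targets (helper20).

`G = N ⋊ Q`, `Q = ℤ[x]_{≤2} ⋊ ℤ` (shift), `N` the right-angled Coxeter group on the quadratic
polynomials, `H = N ⋊ ℤ[x]_{≤2}`. -/

set_option autoImplicit false

namespace Pool.Agent.H20.Morse

/-- Quadratic polynomial `a x² + b x + c`. -/
@[ext] structure Pol where
  c : ℤ
  b : ℤ
  a : ℤ

/-- Element `(a x² + b x + c, shift by h)` of `ℤ[x]_{≤2} ⋊ ℤ`. -/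
@[ext] structure Q where
  c : ℤ
  b : ℤ
  a : ℤ
  h : ℤ

namespace Q

instance : Mul Q :=
  ⟨fun q r => ⟨q.c + r.c + r.b * q.h + r.a * q.h ^ 2, q.b + r.b + 2 * r.a * q.h, q.a + r.a,
    q.h + r.h⟩⟩
instance : One Q := ⟨⟨0, 0, 0, 0⟩⟩
instance : Inv Q :=
  ⟨fun q => ⟨-(q.c - q.b * q.h + q.a * q.h ^ 2), -(q.b - 2 * q.a * q.h), -q.a, -q.h⟩⟩

@[simp] theorem mul_c (q r : Q) : (q * r).c = q.c + r.c + r.b * q.h + r.a * q.h ^ 2 := rfl
@[simp] theorem mul_b (q r : Q) : (q * r).b = q.b + r.b + 2 * r.a * q.h := rfl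
@[simp] theorem mul_a (q r : Q) : (q * r).a = q.a + r.a := rfl
@[simp] theorem mul_h (q r : Q) : (q * r).h = q.h + r.h := rfl
@[simp] theorem one_c : (1 : Q).c = 0 := rfl
@[simp] theorem one_b : (1 : Q).b = 0 := rfl
@[simp] theorem one_a : (1 : Q).a = 0 := rfl
@[simp] theorem one_h : (1 : Q).h = 0 := rfl
@[simp] theorem inv_c (q : Q) : (q⁻¹).c = -(q.c - q.b * q.h + q.a * q.h ^ 2) := rfl
@[simp] theorem inv_b (q : Q) : (q⁻¹).b = -(q.b - 2 * q.a * q.h) := rfl
@[simp] theorem inv_a (q : Q) : (q⁻¹).a = -q.a := rfl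
@[simp] theorem inv_h (q : Q) : (q⁻¹).h = -q.h := rfl

instance : Group Q where
  mul_assoc x y z := by ext <;> simp <;> ring
  one_mul x := by ext <;> simp
  mul_one x := by ext <;> simp
  inv_mul_cancel x := by ext <;> simp <;> ring

instance : SMul Q Pol :=
  ⟨fun q x => ⟨q.c + x.c + x.b * q.h + x.a * q.h ^ 2, q.b + x.b + 2 * x.a * q.h, q.a + x.a⟩⟩

@[simp] theorem smul_c (q : Q) (x : Pol) : (q • x).c = q.c + x.c + x.b * q.h + x.a * q.h ^ 2 := rfl
@[simp] theorem smul_b (q : Q) (x : Pol) : (q • x).b = q.b + x.b + 2 * x.a * q.h := rfl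
@[simp] theorem smul_a (q : Q) (x : Pol) : (q • x).a = q.a + x.a := rfl

instance : MulAction Q Pol where
  one_smul x := by ext <;> simp
  mul_smul x y z := by ext <;> simp <;> ring

end Q

/-- Commutation relation: the difference `a x² + b x + c` has `|a| ≥ 2` and
`|b² - 4ac| ≤ 2a²`. -/
def Adj (x y : Pol) : Prop :=
  2 ≤ |x.a - y.a| ∧ |(x.b - y.b) ^ 2 - 4 * (x.a - y.a) * (x.c - y.c)| ≤ 2 * (x.a - y.a) ^ 2

theorem adj_symm {x y : Pol} (h : Adj x y) : Adj y x := by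
  obtain ⟨h1, h2⟩ := h
  refine ⟨by rwa [abs_sub_comm], ?_⟩
  have e1 : (y.b - x.b) ^ 2 - 4 * (y.a - x.a) * (y.c - x.c)
      = (x.b - y.b) ^ 2 - 4 * (x.a - y.a) * (x.c - y.c) := by ring
  have e2 : (y.a - x.a) ^ 2 = (x.a - y.a) ^ 2 := by ring
  rw [e1, e2]
  exact h2

theorem adj_smul {x y : Pol} (q : Q) (h : Adj x y) : Adj (q • x) (q • y) := by
  obtain ⟨h1, h2⟩ := h
  have e0 : (q • x).a - (q • y).a = x.a - y.a := by simp
  have e1 : ((q • x).b - (q • y).b) ^ 2 - 4 * ((q • x).a - (q • y).a) * ((q • x).c - (q • y).c)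
      = (x.b - y.b) ^ 2 - 4 * (x.a - y.a) * (x.c - y.c) := by
    simp
    ring
  refine ⟨by rwa [e0], ?_⟩
  rw [e1, e0]
  exact h2

/-- The group of lamps. -/
abbrev N : Type := Racg Adj

/-- The lamp at `x`. -/
abbrev lmp (x : Pol) : N := Racg.lamp Adj x

/-- The endomorphism of `N` induced by `q`. -/
def psiHom (q : Q) : N →* N :=
  Racg.lift (fun x => lmp (q • x)) (fun x => Racg.lamp_sq _)
    (fun _ _ h => Racg.lamp_comm (adj_smul q h))

@[simp] theorem psiHom_lmp (q : Q) (x : Pol) : psiHom q (lmp x) = lmp (q • x) := rfl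

theorem psiHom_mul (q r : Q) : psiHom (q * r) = (psiHom q).comp (psiHom r) := by
  apply Racg.hom_ext
  intro x
  change lmp ((q * r) • x) = lmp (q • r • x)
  rw [mul_smul]

theorem psiHom_one : psiHom 1 = MonoidHom.id N := by
  apply Racg.hom_ext
  intro x
  change lmp ((1 : Q) • x) = lmp x
  rw [one_smul]

/-- The action of `Q` on `N`. -/
def psi : Q →* MulAut N where
  toFun q :=
    { toFun := psiHom q
      invFun := psiHom q⁻¹
      left_inv := fun n => by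
        have := congrArg (fun f : N →* N => f n) (psiHom_mul q⁻¹ q)
        simpa [psiHom_one] using this.symm
      right_inv := fun n => by
        have := congrArg (fun f : N →* N => f n) (psiHom_mul q q⁻¹)
        simpa [psiHom_one] using this.symm
      map_mul' := fun x y => map_mul _ _ _ }
  map_one' := by
    ext n
    change psiHom 1 n = n
    rw [psiHom_one]
    rfl
  map_mul' q r := by
    ext n
    change psiHom (q * r) n = psiHom q (psiHom r n)
    rw [psiHom_mul]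
    rfl

@[simp] theorem psi_lmp (q : Q) (x : Pol) : psi q (lmp x) = lmp (q • x) := rfl

/-- The big group. -/
abbrev G : Type := N ⋊[psi] Q

/-- Base lamp position: the polynomial `x²`. -/
def x0 : Pol := ⟨0, 0, 1⟩

/-- Toggle the lamp at the current position. -/
def al : G := SemidirectProduct.inl (lmp x0)
/-- Moves. -/
def e1 : G := SemidirectProduct.inr ⟨1, 0, 0, 0⟩
def e2 : G := SemidirectProduct.inr ⟨0, 1, 0, 0⟩
def e3 : G := SemidirectProduct.inr ⟨0, 0, 1, 0⟩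
def sh : G := SemidirectProduct.inr ⟨0, 0, 0, 1⟩

open Classical in
/-- Generating set of `G`. -/
noncomputable def SG : Finset G := {al, e1, e2, e3, sh, al * sh}

/-- The height homomorphism. -/
def hgt : G →* Multiplicative ℤ where
  toFun g := Multiplicative.ofAdd g.right.h
  map_one' := rfl
  map_mul' _ _ := rfl

/-- The normal subgroup. -/
def H : Subgroup G := hgt.ker

/-- The Morse ray. -/
def ray (k : ℕ) : G := (al * sh) ^ k

/-- Cayley graph, as in the frozen statement. -/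
abbrev cay {Γ : Type} [Group Γ] (S : Finset Γ) : SimpleGraph Γ :=
  SimpleGraph.fromRel (fun x y : Γ => x⁻¹ * y ∈ S)

/-- Geodesic ray. -/
def GeoRay {V : Type} (g : SimpleGraph V) (γ : ℕ → V) : Prop :=
  ∀ m n : ℕ, ((g.dist (γ m) (γ n) : ℕ) : ℝ) = |(m : ℝ) - (n : ℝ)|

/-- Morse property, as in the frozen statement. -/
def MorseRay {V : Type} (g : SimpleGraph V) (γ : ℕ → V) : Prop :=
  ∃ N : ℝ → ℝ → ℝ, ∀ K C : ℝ, 1 ≤ K → 0 ≤ C →
    ∀ (L : ℕ) (q : ℕ → V),
      (∀ i j : ℕ, i ≤ L → j ≤ L →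
        |(i : ℝ) - (j : ℝ)| / K - C ≤ ((g.dist (q i) (q j) : ℕ) : ℝ) ∧
        ((g.dist (q i) (q j) : ℕ) : ℝ) ≤ K * |(i : ℝ) - (j : ℝ)| + C) →
      (∃ a : ℕ, q 0 = γ a) → (∃ b : ℕ, q L = γ b) →
      ∀ i : ℕ, i ≤ L → ∃ t : ℕ, ((g.dist (q i) (γ t) : ℕ) : ℝ) ≤ N K C

/-- `p` is a path (with pauses allowed) of length `T` in the graph `g`. -/
def IsPath {V : Type} (g : SimpleGraph V) (T : ℕ) (p : ℕ → V) : Prop :=
  ∀ t < T, p t = p (t + 1) ∨ g.Adj (p t) (p (t + 1))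

/-- Superlinear lower divergence of a ray, in the form we need. -/
def LD {V : Type} (g : SimpleGraph V) (γ : ℕ → V) : Prop :=
  ∀ C' : ℕ, ∃ R0 : ℕ, ∀ R ≥ R0, ∀ i k j : ℕ, i + R ≤ k → k + R ≤ j →
    ∀ (T : ℕ) (p : ℕ → V), T ≤ C' * R → p 0 = γ i → p T = γ j → IsPath g T p →
      ∃ t ≤ T, 4 * g.dist (p t) (γ k) ≤ R

/-- Linear detours around the identity at every large scale. -/
def Wide {Γ : Type} [Group Γ] (S : Finset Γ) : Prop :=
  ∃ C1 D1 k0 : ℕ, ∀ k ≥ k0, ∀ x y : Γ, (cay S).dist 1 x = k → (cay S).dist 1 y = k →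
    ∃ (T : ℕ) (p : ℕ → Γ), T ≤ C1 * k ∧ p 0 = x ∧ p T = y ∧ IsPath (cay S) T p ∧
      ∀ t ≤ T, k ≤ D1 * (cay S).dist 1 (p t)

/-! ### Module targets -/

/-- Module A. -/
def TargetA : Prop :=
  ∀ (V : Type) (g : SimpleGraph V), g.Connected → ∀ γ : ℕ → V, GeoRay g γ → LD g γ → MorseRay g γ

/-- Module B. -/
def TargetB : Prop :=
  ∀ (Γ : Type) [Group Γ] (S : Finset Γ), Subgroup.closure (S : Set Γ) = ⊤ → Wide S →
    ¬ ∃ γ : ℕ → Γ, GeoRay (cay S) γ ∧ MorseRay (cay S) γ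

/-- Module C: the ray has superlinear lower divergence. -/
def TargetC : Prop := LD (cay SG) ray

/-- Module D: `H` is wide for every finite generating set. -/
def TargetD : Prop :=
  ∀ S : Finset H, Subgroup.closure (S : Set H) = ⊤ → Wide S

/-- Module E: combinatorics of words in right-angled Coxeter groups. -/
def TargetE : Prop :=
  ∀ (X : Type) (A : X → X → Prop), (∀ x y, A x y → A y x) →
    ∀ (ws : List X) (n : ℕ) (Y : ℕ → X),
      (∀ i < n, ∀ j < n, Y i = Y j → i = j) → (∀ i < n, ∀ j < n, ¬ A (Y i) (Y j)) →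
      (ws.map (Racg.lamp A)).prod = ((List.range n).map (fun l => Racg.lamp A (Y l))).prod →
      ∃ j : ℕ → ℕ, (∀ l < n, ws[j l]? = some (Y l)) ∧ (∀ l l', l < l' → l' < n → j l < j l') ∧
        ∀ l0 l1, l0 < l1 → l1 < n → (∀ u ∈ ws, ∃ l, l0 ≤ l ∧ l ≤ l1 ∧ ¬ A u (Y l)) →
          ∃ E' : List X, E'.Sublist ((ws.drop (j l0 + 1)).take (j l1 - j l0 - 1)) ∧
            ((ws.take (j l0 + 1)).map (Racg.lamp A)).prod * (E'.map (Racg.lamp A)).prod
              = ((List.range (l0 + 1)).map (fun l => Racg.lamp A (Y l))).prod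

/-- Module F: group-theoretic facts. -/
def TargetF : Prop :=
  H.Normal ∧ Infinite H ∧ Group.FG H ∧ Subgroup.closure (SG : Set G) = ⊤ ∧ GeoRay (cay SG) ray

end Pool.Agent.H20.Morse
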