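import Pool.Agent.H20.Morse.Cay

/-! Module F: group-theoretic facts about the example (MP_b587bd_al, helper20). -/

set_option autoImplicit false

namespace Pool.Agent.H20.Morse

open SemidirectProduct

theorem zpow_of_add {Γ : Type} [Group Γ] (f : ℤ → Γ) (hf : ∀ x y, f (x + y) = f x * f y) (z : ℤ) :
    f 1 ^ z = f z := by
  have h0 : f 0 = 1 := by
    have := hf 0 0
    simp only [add_zero] at this
    exact (mul_eq_left.mp this.symm)
  let F : Multiplicative ℤ →* Γ :=
    { toFun := fun z => f (Multiplicative.toAdd z)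
      map_one' := h0
      map_mul' := fun a b => hf _ _ }
  have h1 : F (Multiplicative.ofAdd 1 ^ z) = F (Multiplicative.ofAdd 1) ^ z := map_zpow F _ _
  have h2 : (Multiplicative.ofAdd (1 : ℤ)) ^ z = Multiplicative.ofAdd z := by
    rw [← ofAdd_zsmul]
    simp
  rw [h2] at h1
  exact h1.symm

theorem e1_zpow (z : ℤ) : e1 ^ z = inr (⟨z, 0, 0, 0⟩ : Q) :=
  zpow_of_add (fun z => (inr (⟨z, 0, 0, 0⟩ : Q) : G)) (fun x y => by
    rw [← map_mul]; congr 1; ext <;> simp) z

theorem e2_zpow (z : ℤ) : e2 ^ z = inr (⟨0, z, 0, 0⟩ : Q) :=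
  zpow_of_add (fun z => (inr (⟨0, z, 0, 0⟩ : Q) : G)) (fun x y => by
    rw [← map_mul]; congr 1; ext <;> simp) z

theorem e3_zpow (z : ℤ) : e3 ^ z = inr (⟨0, 0, z, 0⟩ : Q) :=
  zpow_of_add (fun z => (inr (⟨0, 0, z, 0⟩ : Q) : G)) (fun x y => by
    rw [← map_mul]; congr 1; ext <;> simp) z

theorem sh_zpow (z : ℤ) : sh ^ z = inr (⟨0, 0, 0, z⟩ : Q) :=
  zpow_of_add (fun z => (inr (⟨0, 0, 0, z⟩ : Q) : G)) (fun x y => by
    rw [← map_mul]; congr 1; ext <;> simp) z

/-- Translation part. -/
def tr (c b a : ℤ) : G := inr (⟨c, b, a, 0⟩ : Q)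

theorem tr_eq (c b a : ℤ) : tr c b a = e1 ^ c * e2 ^ b * e3 ^ a := by
  rw [e1_zpow, e2_zpow, e3_zpow, ← map_mul, ← map_mul]
  unfold tr
  congr 1
  ext <;> simp

theorem inr_eq (q : Q) : (inr q : G) = tr q.c q.b q.a * sh ^ q.h := by
  rw [sh_zpow]
  unfold tr
  rw [← map_mul]
  congr 1
  ext <;> simp

theorem inl_lmp (x : Pol) : (inl (lmp x) : G) = tr x.c x.b (x.a - 1) * al * (tr x.c x.b (x.a - 1))⁻¹ := by
  unfold tr al
  rw [← map_inv (inr : Q →* G), ← inl_aut]
  congr 1
  change lmp x = lmp ((⟨x.c, x.b, x.a - 1, 0⟩ : Q) • x0)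
  congr 1
  ext <;> simp [x0]

theorem inl_mem {K : Subgroup G} (hal : al ∈ K) (ht : ∀ c b a, tr c b a ∈ K) (n : N) :
    (inl n : G) ∈ K := by
  obtain ⟨w, rfl⟩ := Racg.exists_word n
  induction w with
  | nil => simp
  | cons x w ih =>
    rw [List.map_cons, List.prod_cons, map_mul]
    apply K.mul_mem _ ih
    change (inl (lmp x) : G) ∈ K
    rw [inl_lmp]
    exact K.mul_mem (K.mul_mem (ht _ _ _) hal) (K.inv_mem (ht _ _ _))

theorem al_mem_SG : al ∈ SG := by classical simp [SG]
theorem e1_mem_SG : e1 ∈ SG := by classical simp [SG]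
theorem e2_mem_SG : e2 ∈ SG := by classical simp [SG]
theorem e3_mem_SG : e3 ∈ SG := by classical simp [SG]
theorem sh_mem_SG : sh ∈ SG := by classical simp [SG]
theorem alsh_mem_SG : al * sh ∈ SG := by classical simp [SG]

theorem closure_SG : Subgroup.closure (SG : Set G) = ⊤ := by
  rw [eq_top_iff]
  intro g _
  have hal := (Subgroup.subset_closure al_mem_SG : al ∈ Subgroup.closure (SG : Set G))
  have h1 := (Subgroup.subset_closure e1_mem_SG : e1 ∈ Subgroup.closure (SG : Set G))
  have h2 := (Subgroup.subset_closure e2_mem_SG : e2 ∈ Subgroup.closure (SG : Set G))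
  have h3 := (Subgroup.subset_closure e3_mem_SG : e3 ∈ Subgroup.closure (SG : Set G))
  have hs := (Subgroup.subset_closure sh_mem_SG : sh ∈ Subgroup.closure (SG : Set G))
  have ht : ∀ c b a, tr c b a ∈ Subgroup.closure (SG : Set G) := by
    intro c b a
    rw [tr_eq]
    exact Subgroup.mul_mem _ (Subgroup.mul_mem _ (Subgroup.zpow_mem _ h1 _)
      (Subgroup.zpow_mem _ h2 _)) (Subgroup.zpow_mem _ h3 _)
  rw [← inl_left_mul_inr_right g, inr_eq]
  exact Subgroup.mul_mem _ (inl_mem hal ht _) (Subgroup.mul_mem _ (ht _ _ _)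
    (Subgroup.zpow_mem _ hs _))

theorem mem_H {g : G} : g ∈ H ↔ g.right.h = 0 := by
  unfold H
  rw [MonoidHom.mem_ker]
  change Multiplicative.ofAdd g.right.h = 1 ↔ _
  rw [ofAdd_eq_one]

theorem H_normal : H.Normal := by
  unfold H
  infer_instance

theorem al_mem_H : al ∈ H := by rw [mem_H]; simp [al]
theorem e1_mem_H : e1 ∈ H := by rw [mem_H]; simp [e1]
theorem e2_mem_H : e2 ∈ H := by rw [mem_H]; simp [e2]
theorem e3_mem_H : e3 ∈ H := by rw [mem_H]; simp [e3]

theorem H_infinite : Infinite H := by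
  refine Infinite.of_injective (fun z : ℤ => (⟨inr (⟨z, 0, 0, 0⟩ : Q), by rw [mem_H]; simp⟩ : H)) ?_
  intro x y hxy
  have h1 := congrArg (fun g : H => (g : G).right.c) hxy
  simpa using h1

theorem H_fg : Group.FG H := by
  rw [Group.fg_iff_subgroup_fg]
  classical
  refine ⟨{al, e1, e2, e3}, ?_⟩
  apply le_antisymm
  · rw [Subgroup.closure_le]
    intro g hg
    simp only [Finset.coe_insert, Finset.coe_singleton, Set.mem_insert_iff,
      Set.mem_singleton_iff] at hg
    rcases hg with rfl | rfl | rfl | rfl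
    · exact al_mem_H
    · exact e1_mem_H
    · exact e2_mem_H
    · exact e3_mem_H
  · intro g hg
    rw [mem_H] at hg
    set K := Subgroup.closure ((({al, e1, e2, e3} : Finset G)) : Set G) with hK
    have hal : al ∈ K := Subgroup.subset_closure (by simp)
    have h1 : e1 ∈ K := Subgroup.subset_closure (by simp)
    have h2 : e2 ∈ K := Subgroup.subset_closure (by simp)
    have h3 : e3 ∈ K := Subgroup.subset_closure (by simp)
    have ht : ∀ c b a, tr c b a ∈ K := by
      intro c b a
      rw [tr_eq]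
      exact Subgroup.mul_mem _ (Subgroup.mul_mem _ (Subgroup.zpow_mem _ h1 _)
        (Subgroup.zpow_mem _ h2 _)) (Subgroup.zpow_mem _ h3 _)
    rw [← inl_left_mul_inr_right g, inr_eq, hg, zpow_zero, mul_one]
    exact Subgroup.mul_mem _ (inl_mem hal ht _) (ht _ _ _)

theorem hgt_adj (x y : G) (h : (cay SG).Adj x y) : |x.right.h - y.right.h| ≤ 1 := by
  classical
  rw [cay_adj] at h
  have key : ∀ g ∈ SG, |g.right.h| ≤ 1 := by
    intro g hg
    simp only [SG, Finset.mem_insert, Finset.mem_singleton] at hg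
    rcases hg with rfl | rfl | rfl | rfl | rfl | rfl <;> simp [al, e1, e2, e3, sh]
  rcases h.2 with h | h
  · have := key _ h
    simp only [mul_right, inv_right, Q.mul_h, Q.inv_h] at this
    rw [abs_sub_comm]
    have e : y.right.h - x.right.h = -x.right.h + y.right.h := by ring
    rw [e]
    exact this
  · have := key _ h
    simp only [mul_right, inv_right, Q.mul_h, Q.inv_h] at this
    have e : x.right.h - y.right.h = -y.right.h + x.right.h := by ring
    rw [e]
    exact this

theorem ray_right (k : ℕ) : (ray k).right = ⟨0, 0, 0, k⟩ := by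
  induction k with
  | zero => rfl
  | succ k ih =>
    unfold ray at *
    rw [pow_succ, mul_right, ih]
    ext <;> simp [al, sh]

theorem ray_succ (k : ℕ) : ray (k + 1) = ray k * (al * sh) := by
  unfold ray
  rw [pow_succ]

theorem ray_isPath (T m : ℕ) : IsPath (cay SG) T (fun t => ray (m + t)) := by
  intro t _
  simp only
  rw [← Nat.add_assoc, ray_succ]
  exact isPath_step (Or.inl alsh_mem_SG)

theorem ray_geo : GeoRay (cay SG) ray := by
  intro m n
  wlog hmn : m ≤ n generalizing m n
  · have := this n m (by omega)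
    rw [SimpleGraph.dist_comm, this, abs_sub_comm]
  have hc := cay_connected closure_SG
  have h1 : (cay SG).dist (ray m) (ray n) ≤ n - m := by
    have := (ray_isPath (n - m) m).dist_le
    simp only [Nat.add_zero] at this
    rwa [Nat.add_sub_cancel' hmn] at this
  have h2 := lipschitz_dist hc (fun g : G => g.right.h) hgt_adj (ray m) (ray n)
  simp only [ray_right] at h2
  have h3 : (cay SG).dist (ray m) (ray n) = n - m := by
    apply le_antisymm h1
    have h4 : |(m:ℤ) - n| = n - m := by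
      rw [abs_sub_comm, abs_of_nonneg]
      omega
    rw [h4] at h2
    omega
  rw [h3, abs_sub_comm, abs_of_nonneg (by
    have : (m:ℝ) ≤ n := by exact_mod_cast hmn
    linarith)]
  push_cast [hmn]
  ring

theorem targetF : TargetF := ⟨H_normal, H_infinite, H_fg, closure_SG, ray_geo⟩

end Pool.Agent.H20.Morse
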