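import Mathlib

/-! Right-angled Coxeter groups over an arbitrary relation (MP_b587bd_al, helper20). -/

set_option autoImplicit false

namespace Pool.Agent.H20.Morse

/-- Relations of the right-angled Coxeter group on `X` with commutation relation `A`. -/
inductive RRel {X : Type} (A : X → X → Prop) : FreeMonoid X → FreeMonoid X → Prop
  | sq (x : X) : RRel A (FreeMonoid.of x * FreeMonoid.of x) 1
  | comm (x y : X) (h : A x y) :
      RRel A (FreeMonoid.of x * FreeMonoid.of y) (FreeMonoid.of y * FreeMonoid.of x)

/-- The right-angled Coxeter group `⟨ X | x² = 1, xy = yx for A x y ⟩`. -/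
def Racg {X : Type} (A : X → X → Prop) : Type := PresentedMonoid (RRel A)

namespace Racg

variable {X Y : Type} {A : X → X → Prop}

instance : Monoid (Racg A) := inferInstanceAs (Monoid (PresentedMonoid (RRel A)))

/-- The generator attached to `x`. -/
def lamp (A : X → X → Prop) (x : X) : Racg A := PresentedMonoid.of (RRel A) x

theorem lamp_sq (x : X) : lamp A x * lamp A x = 1 :=
  PresentedMonoid.mk_eq_mk_of_rel (RRel.sq (A := A) x)

theorem lamp_comm {x y : X} (h : A x y) : lamp A x * lamp A y = lamp A y * lamp A x :=
  PresentedMonoid.mk_eq_mk_of_rel (RRel.comm (A := A) x y h)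

/-- Universal property. -/
def lift {M : Type*} [Monoid M] (f : X → M) (h1 : ∀ x, f x * f x = 1)
    (h2 : ∀ x y, A x y → f x * f y = f y * f x) : Racg A →* M :=
  PresentedMonoid.lift (rels := RRel A) f (by
    intro a b h
    cases h with
    | sq x => simpa using h1 x
    | comm x y h => simpa using h2 x y h)

@[simp] theorem lift_lamp {M : Type*} [Monoid M] (f : X → M) (h1 : ∀ x, f x * f x = 1)
    (h2 : ∀ x y, A x y → f x * f y = f y * f x) (x : X) :
    lift f h1 h2 (lamp A x) = f x := rfl

theorem hom_ext {M : Type*} [Monoid M] {f g : Racg A →* M}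
    (h : ∀ x, f (lamp A x) = g (lamp A x)) : f = g :=
  PresentedMonoid.ext (RRel A) h

theorem exists_word (n : Racg A) : ∃ w : List X, (w.map (lamp A)).prod = n := by
  obtain ⟨a, rfl⟩ := PresentedMonoid.surjective_mk (rels := RRel A) n
  refine ⟨FreeMonoid.toList a, ?_⟩
  induction a with
  | one => rfl
  | of x => simp [lamp, PresentedMonoid.of]
  | mul x y hx hy =>
    rw [FreeMonoid.toList_mul, List.map_append, List.prod_append, hx, hy, map_mul]
    rfl

/-- The inverse as an anti-automorphism. -/
def invHom (A : X → X → Prop) : Racg A →* (Racg A)ᵐᵒᵖ :=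
  lift (fun x => MulOpposite.op (lamp A x)) (by
    intro x
    rw [← MulOpposite.op_mul, lamp_sq, MulOpposite.op_one]) (by
    intro x y h
    rw [← MulOpposite.op_mul, ← MulOpposite.op_mul, lamp_comm h])

theorem invHom_word (w : List X) :
    (invHom A (w.map (lamp A)).prod).unop * (w.map (lamp A)).prod = 1 := by
  induction w using List.reverseRecOn with
  | nil => simp
  | append_singleton w x ih =>
    rw [List.map_append, List.prod_append, map_mul, MulOpposite.unop_mul]
    simp only [List.map_cons, List.map_nil, List.prod_cons, List.prod_nil, mul_one]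
    have h1 : (invHom A (lamp A x)).unop = lamp A x := rfl
    rw [h1]
    calc lamp A x * (invHom A (w.map (lamp A)).prod).unop * ((w.map (lamp A)).prod * lamp A x)
        = lamp A x * ((invHom A (w.map (lamp A)).prod).unop * (w.map (lamp A)).prod) * lamp A x := by
          simp only [mul_assoc]
      _ = 1 := by rw [ih, mul_one, lamp_sq]

instance : Group (Racg A) :=
  { (inferInstance : Monoid (Racg A)) with
    inv := fun n => (invHom A n).unop
    inv_mul_cancel := by
      intro n
      obtain ⟨w, rfl⟩ := exists_word n
      exact invHom_word w }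

theorem lamp_inv (x : X) : (lamp A x)⁻¹ = lamp A x :=
  inv_eq_of_mul_eq_one_left (lamp_sq x)

theorem prod_reverse (w : List X) :
    (w.reverse.map (lamp A)).prod = ((w.map (lamp A)).prod)⁻¹ := by
  induction w with
  | nil => simp
  | cons x w ih =>
    simp only [List.reverse_cons, List.map_append, List.prod_append, List.map_cons, List.map_nil,
      List.prod_cons, List.prod_nil, mul_one, ih, mul_inv_rev, lamp_inv]

end Racg

end Pool.Agent.H20.Morse
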